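import Pool.Agent.Lib.RY.Gen
import Pool.Agent.Lib.RY.K_At
import Pool.Agent.Lib.RAF.H1O

/-! Project ra2: statements for pluriharmonic functions of logarithmic growth and for basic
functions. -/

open scoped Classical Topology ContDiff ComplexOrder Matrix
open Set MeasureTheory Complex Metric Filter

set_option linter.unusedVariables false

noncomputable section

namespace Pool.Agent.Lib.RAF

open Pool.Agent.Lib.SV (E nsq)
open Pool.Agent.Lib.HS32 Pool.Agent.Lib.RA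

section defs

variable {n : ℕ} (M : Mf n)

/-- A local decomposition of `g` on the open set `O`. -/
structure Lc {κ : Type} [Fintype κ] (W : Set M.X) (g : M.X → ℝ) (l : κ → ℝ) (O : Set M.X)
    (δ : M.X → ℂ) (a b : κ → M.X → ℂ) (A : M.X → ℂ) : Prop where
  dv : Dv M O δ
  hA : ∀ y ∈ O, HolAt M A y
  ha : ∀ i, ∀ y ∈ O, HolAt M (a i) y
  hb : ∀ i, ∀ y ∈ O, HolAt M (b i) y
  eq : ∀ y ∈ O, δ y ≠ 0 → y ∈ W ∧ (∀ i, a i y ≠ 0 ∧ b i y ≠ 0) ∧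
    g y = ∑ i, l i * Real.log (normSq (a i y / b i y)) + 2 * (A y).re

/-- A multiplicative cocycle of holomorphic units. -/
structure Mc {ι : Type} (O : ι → Set M.X) (U : ι → ι → M.X → ℂ) : Prop where
  hol : ∀ a b y, y ∈ O a → y ∈ O b → HolAt M (U a b) y ∧ U a b y ≠ 0
  coc : ∀ a b c y, y ∈ O a → y ∈ O b → y ∈ O c → U a b y * U b c y = U a c y

/-- An additive cocycle of holomorphic functions. -/
structure Ac {ι : Type} (O : ι → Set M.X) (h : ι → ι → M.X → ℂ) : Prop where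
  hol : ∀ a b y, y ∈ O a → y ∈ O b → HolAt M (h a b) y
  coc : ∀ a b c y, y ∈ O a → y ∈ O b → y ∈ O c → h a b y + h b c y = h a c y

/-- The logarithm of the squared norm of a section of the `ν`-th power of the bundle. -/
def hn (φ : M.Fam ℝ) (ν : ℕ) (s : M.Fam ℂ) (x : M.X) : ℝ :=
  Real.log (normSq (M.ev s x)) - ν * M.ev φ x

variable {M}

theorem hn_ch {L : M.Co} {φ : M.Fam ℝ} {ν : ℕ} {s : M.Fam ℂ} {W : Set M.X} (hφ : M.WtC L φ)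
    (hs : MerSec M L ν s W) {x : M.X} (hx : x ∈ W) {e : M.Ch} (he : e ∈ M.C) (hxe : x ∈ e.source) :
    hn M φ ν s x = Real.log (normSq (s e (e x))) - ν * φ e (e x) := by
  have h1 := hs.cmp e he _ (Mf.ch_mem x) x hxe (Mf.mem_ch x) hx
  have h2 := hφ.cmp e he _ (Mf.ch_mem x) x hxe (Mf.mem_ch x)
  have h3 := L.ne e he _ (Mf.ch_mem x) x hxe (Mf.mem_ch x)
  beta_reduce at h1 h2
  rw [hn, Mf.ev, Mf.ev, h1, h2, map_mul, map_pow,
    Real.log_mul (normSq_pos.2 (hs.hol x hx e he hxe).2).ne' (pow_pos (normSq_pos.2 h3) _).ne',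
    Real.log_pow]
  ring

/-- A holomorphic function that omits a neighbourhood is locally constant. -/
theorem const_of_freq {f : M.X → ℂ} {x : M.X} (h : HolAt M f x) {S : Set ℂ}
    (hS : ∀ᶠ y in 𝓝 x, f y ∈ S) (hn : S ∉ 𝓝 (f x)) : ∀ᶠ y in 𝓝 x, f y = f x := by
  have hx := Mf.mem_ch x
  have e1 : (f ∘ (M.ch x).symm) (M.ch x x) = f x := by simp [(M.ch x).left_inv hx]
  rcases (ANB.analyticAt h.ch).eventually_constant_or_nhds_le_map_nhds with h1 | h1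
  · rw [e1] at h1
    exact (ev_ch hx).2 h1
  · rw [e1] at h1
    exact absurd (h1 ((ev_ch hx).1 hS)) hn

theorem const_of_re {f : M.X → ℂ} {x : M.X} (h : HolAt M f x) {c : ℝ}
    (hc : ∀ᶠ y in 𝓝 x, (f y).re = c) : ∀ᶠ y in 𝓝 x, f y = f x := by
  refine const_of_freq h (S := {z | z.re = c}) hc fun hn => ?_
  have h1 : ∀ᶠ t : ℝ in 𝓝 0, (f x + t).re = c :=
    (show ContinuousAt (fun t : ℝ => f x + t) 0 by fun_prop).eventually
      (p := fun z => z.re = c) (by simp only [ofReal_zero, add_zero]; exact hn)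
  obtain ⟨t, h2, h3⟩ := ((h1.filter_mono nhdsWithin_le_nhds).and
    (self_mem_nhdsWithin (s := {(0 : ℝ)}ᶜ))).exists
  rw [add_re, ofReal_re, hc.self_of_nhds] at h2
  exact h3 (by simpa using h2)

theorem const_of_norm {f : M.X → ℂ} {x : M.X} (h : HolAt M f x)
    (hc : ∀ᶠ y in 𝓝 x, ‖f y‖ = 1) : ∀ᶠ y in 𝓝 x, f y = f x := by
  refine const_of_freq h (S := {z | ‖z‖ = 1}) hc fun hn => ?_
  have h1 : ∀ᶠ t : ℝ in 𝓝 1, ‖(t : ℂ) * f x‖ = 1 :=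
    (show ContinuousAt (fun t : ℝ => (t : ℂ) * f x) 1 by fun_prop).eventually
      (p := fun z => ‖z‖ = 1) (by simp only [ofReal_one, one_mul]; exact hn)
  obtain ⟨t, h2, h3⟩ := ((h1.filter_mono nhdsWithin_le_nhds).and
    (self_mem_nhdsWithin (s := Ioi (1 : ℝ)))).exists
  rw [norm_mul, hc.self_of_nhds, mul_one, norm_real, Real.norm_eq_abs,
    abs_of_pos (one_pos.trans h3)] at h2
  exact (ne_of_gt h3) h2

end defs

/-! ### Pluriharmonic functions of logarithmic growth -/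

/-- Local decompositions with one family of coefficients. -/
def St_LOC : Prop := ∀ (n : ℕ) (M : Mf n) [M.Cpt] (W : Set M.X) (g : M.X → ℝ),
  (∀ x ∈ W, PhAt M g x) → LogT M W g → ∃ (m q : ℕ) (l : Fin (m + 1) → ℝ), 0 < q ∧ l 0 = 1 / q ∧
    LinearIndependent ℚ l ∧ ∀ x, ∃ O δ a b A, x ∈ O ∧ Lc M W g l O δ a b A

/-- The quotients of two local decompositions are units. -/
def St_UNI : Prop := ∀ (n : ℕ) (M : Mf n) (κ ι : Type) [Fintype κ] (W : Set M.X) (g : M.X → ℝ)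
  (l : κ → ℝ) (O : ι → Set M.X) (δ : ι → M.X → ℂ) (a b : ι → κ → M.X → ℂ) (A : ι → M.X → ℂ),
  LinearIndependent ℚ l → (∀ u, Lc M W g l (O u) (δ u) (a u) (b u) (A u)) →
  ∃ U : κ → ι → ι → M.X → ℂ, (∀ i, Mc M O (U i)) ∧ ∀ u v y, y ∈ O u → y ∈ O v →
    (∑ i, l i * Real.log (normSq (U i u v y)) = 2 * (A v y - A u y).re) ∧
    (δ u y ≠ 0 → δ v y ≠ 0 → ∀ i, a u i y / b u i y = U i u v y * (a v i y / b v i y))

/-- From the multiplicative cocycles to additive ones. -/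
def St_LGC : Prop := ∀ (n : ℕ) (M : Mf n) (κ ι : Type) [Fintype κ] (l : κ → ℝ) (O : ι → Set M.X)
  (U : κ → ι → ι → M.X → ℂ) (A : ι → M.X → ℂ), LinearIndependent ℚ l → (∀ u, IsOpen (O u)) →
  (∀ i, Mc M O (U i)) → (∀ u, ∀ y ∈ O u, HolAt M (A u) y) →
  (∀ u v y, y ∈ O u → y ∈ O v →
    ∑ i, l i * Real.log (normSq (U i u v y)) = 2 * (A v y - A u y).re) →
  ∀ i, ∃ h, Ac M O h ∧ ∀ u v y, y ∈ O u → y ∈ O v →
    2 * (h u v y).re = Real.log (normSq (U i u v y))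

/-- The real part of an additive cocycle splits. -/
def St_H1A : Prop := ∀ (n : ℕ) (M : Mf n) [M.Cpt] (G : M.Fam (Mat n)) (O : M.X → Set M.X)
  (h : M.X → M.X → M.X → ℂ), 0 < n → M.Kae G → (∀ x, IsOpen (O x) ∧ x ∈ O x) → Ac M O h →
  ∃ (O' : M.X → Set M.X) (B : M.X → M.X → ℂ), (∀ x, IsOpen (O' x) ∧ x ∈ O' x ∧ O' x ⊆ O x ∧
    ∀ y ∈ O' x, HolAt M (B x) y) ∧
    ∀ u v y, y ∈ O' u → y ∈ O' v → (B v y - B u y).re = (h u v y).re

/-- A flat cocycle on a simply connected manifold splits. -/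
def St_PIC : Prop := ∀ (n : ℕ) (M : Mf n) [SimplyConnectedSpace M.X] (ι : Type) (O : ι → Set M.X)
  (U : ι → ι → M.X → ℂ) (B : ι → M.X → ℂ), (∀ u, IsOpen (O u)) → (∀ x, ∃ u, x ∈ O u) →
  Mc M O U → (∀ u, ∀ y ∈ O u, HolAt M (B u) y) →
  (∀ u v y, y ∈ O u → y ∈ O v → 2 * (B v y - B u y).re = Real.log (normSq (U u v y))) →
  ∃ K : ι → M.X → ℂ, (∀ u, ∀ y ∈ O u, HolAt M (K u) y ∧ K u y ≠ 0 ∧
    Real.log (normSq (K u y)) = 2 * (B u y).re) ∧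
    ∀ u v y, y ∈ O u → y ∈ O v → K v y = K u y * U u v y

/-! ### Basic functions -/

/-- Descent of analyticity to the tube. -/
def St_DESC : Prop := ∀ (n k j : ℕ) (M : Mf n) (H : M.X → E (k + j)) (x₁ : M.X) (w : M.X → ℝ)
  (F : E (k + j) → ℝ), HolAt M H x₁ → Subm M H x₁ → AnAt M w x₁ →
  (∀ᶠ x in 𝓝 x₁, w x = F (pj (H x))) →
  ∃ ε, 0 < ε ∧ ∀ t, ‖pj t - pj (H x₁)‖ < ε → AnalyticAt ℝ (fun t' => F (pj t')) t

/-- Where the combination is bounded, each term extends smoothly. -/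
def St_UNS : Prop := ∀ (n : ℕ) (M : Mf n) (κ : Type) [Fintype κ] (L : M.Co) (φ : M.Fam ℝ) (W U : Set M.X)
  (l : κ → ℝ) (ν : κ → ℕ) (s : κ → M.Fam ℂ), M.WtC L φ → Cothin M W → LinearIndependent ℚ l →
  (∀ i, MerSec M L (ν i) (s i) W) →
  (∀ x ∈ U, ∃ C, ∀ᶠ y in 𝓝 x, y ∈ W → |∑ i, l i * hn M φ (ν i) (s i) y| ≤ C) →
  ∀ i, ∃ u : M.X → ℝ, (∀ x ∈ W, u x = hn M φ (ν i) (s i) x) ∧ ∀ x ∈ U, SmAt M u x ∧
    At M x fun e z => M.hs u e z = (-(ν i : ℝ)) • M.hw φ e z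

/-- A function whose Hessian is a multiple of the curvature on all branches is basic. -/
def St_BRK : Prop := ∀ (n k j m N : ℕ) (M : Mf n) [M.Cpt] (G : M.Fam (Mat n)) (φ : M.Fam ℝ)
  (Q : (M.X → E (k + j)) → M.X → Prop) (ε : ℝ) (K' : Set (E (k + j))) (O : Fin m → Set M.X)
  (H : Fin m → M.X → E (k + j)) (χ : Fin m → M.X → ℝ) (u : M.X → ℝ) (a : ℝ)
  (H₁ : M.X → E (k + j)) (x₁ : M.X), Su M G φ (k + j) → 0 < ε →
  Atl M Q {t | ‖pj t‖ ≤ ε} K' N O H χ →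
  (∀ i, ∀ x ∈ O i, SmAt M u x ∧ At M x fun e z => M.hs u e z = a • M.hw φ e z ∧
    ∀ v, M.hw φ e z *ᵥ v = 0 → fderiv ℂ (H i ∘ e.symm) z v = 0) →
  Q H₁ x₁ → ContinuousAt H₁ x₁ → pj (H₁ x₁) = 0 → x₁ ∈ X0 M (M.hw φ) (k + j) →
  ∀ᶠ y in 𝓝 x₁, At M y fun e z => ∀ v, M.hw φ e z *ᵥ v = 0 → dv1 (u ∘ e.symm) z ⬝ᵥ v = 0

/-- The terms of a basic combination with independent coefficients are basic. -/
def St_BAS : Prop := ∀ (n k j N : ℕ) (M : Mf n) [M.Cpt] (κ : Type) [Fintype κ] (L : M.Co)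
  (G : M.Fam (Mat n)) (φ : M.Fam ℝ) (μ : Fin k → M.X → ℝ) (Φ : E (k + j) × E (k + j) → ℂ)
  (δ c : ℝ) (H : M.X → E (k + j)) (x₁ : M.X) (W : Set M.X) (l : κ → ℝ) (ν : κ → ℕ)
  (s : κ → M.Fam ℂ) (F : E (k + j) → ℝ), Su M G φ (k + j) → M.WtC L φ → (∀ i x, AnAt M (μ i) x) →
  Tv k j Φ δ c → Fin0 Φ δ N → WAdm M (M.hw φ) μ Φ δ H x₁ → Subm M H x₁ → ‖pj (H x₁)‖ < δ →
  Cothin M W → x₁ ∈ W → LinearIndependent ℚ l → (∀ i, MerSec M L (ν i) (s i) W) →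
  (∀ᶠ x in 𝓝 x₁, ∑ i, l i * hn M φ (ν i) (s i) x = F (pj (H x))) →
  ∀ i, ∀ᶠ y in 𝓝 x₁, At M y fun e z => ∀ v, M.hw φ e z *ᵥ v = 0 →
    dv1 (fun w => Real.log (normSq (s i e w)) - ν i * φ e w) z ⬝ᵥ v = 0

/-- The same for functions. -/
def St_BASF : Prop := ∀ (n k j N : ℕ) (M : Mf n) [M.Cpt] (κ : Type) [Fintype κ] (L : M.Co)
  (G : M.Fam (Mat n)) (φ : M.Fam ℝ) (μ : Fin k → M.X → ℝ) (Φ : E (k + j) × E (k + j) → ℂ)
  (δ c : ℝ) (H : M.X → E (k + j)) (x₁ : M.X) (W : Set M.X) (l : κ → ℝ) (f : κ → M.X → ℂ)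
  (F : E (k + j) → ℝ), Su M G φ (k + j) → M.WtC L φ → (∀ i x, AnAt M (μ i) x) →
  Tv k j Φ δ c → Fin0 Φ δ N → WAdm M (M.hw φ) μ Φ δ H x₁ → Subm M H x₁ → ‖pj (H x₁)‖ < δ →
  Cothin M W → x₁ ∈ W → LinearIndependent ℚ l →
  (∀ i, Mer M (f i) ∧ ∀ x ∈ W, HolAt M (f i) x ∧ f i x ≠ 0) →
  (∀ᶠ x in 𝓝 x₁, ∑ i, l i * Real.log (normSq (f i x)) = F (pj (H x))) →
  ∀ i, ∀ᶠ y in 𝓝 x₁, At M y fun e z => ∀ v, M.hw φ e z *ᵥ v = 0 →
    fderiv ℂ (f i ∘ e.symm) z v = 0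

end Pool.Agent.Lib.RAF
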