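import Pool.Agent.Lib.RYF.BlueF
import Pool.Agent.Lib.RYF.BlueS
import Pool.Agent.Lib.RY.B_MER
import Pool.Agent.Lib.RY.B_WAD
import Pool.Agent.Lib.RY.B_TV

/-! Project ra2: the assembly of step F. -/

open scoped Classical Topology ContDiff ComplexOrder Matrix
open Set MeasureTheory Complex Metric Filter

set_option linter.unusedVariables false

noncomputable section

namespace Pool.Agent.Lib.RA

open Pool.Agent.Lib.SV (E nsq)
open Pool.Agent.Lib.HS32 Pool.Agent.Lib.PN Pool.Agent.Lib.UR.M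

namespace AF

theorem logT_abs {n : ℕ} {M : Mf n} {W : Set M.X} {g g' u : M.X → ℝ} {C : ℝ} (h : LogT M W g)
    (h' : LogT M W g') (b : ∀ x ∈ W, |u x| ≤ C * (1 + |g x| + |g' x|)) : LogT M W u := by
  have a : LogT M W fun x => |g x| + |g' x| := fun x => by
    obtain ⟨O, δ, C, h1, h2, h3⟩ := M86.logT_two h h' x
    exact ⟨O, δ, C, h1, h2, fun y hy h0 => ⟨(h3 y hy h0).1.1, by
      rw [abs_of_nonneg (by positivity)]; exact (h3 y hy h0).2⟩⟩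
  refine M86.logT_of_le a (C := C) fun x hx => (b x hx).trans_eq ?_
  rw [abs_of_nonneg (a := |g x| + |g' x|) (by positivity), add_assoc]

theorem sx_pj {k j : ℕ} (t : E (k + j)) : sx (pj t) = sx t := by
  funext l
  simp [sx]

theorem r2_pj {k j : ℕ} (t : E (k + j)) : r2 (fx (pj t)) = r2 (fx t) := by
  funext l
  simp [r2, fx]

end AF

theorem st_F (hSEC : St_FSEC) (hLG : St_FLG) (hKIL : St_FKIL) (hSEL : St_FSEL) (hCOR : St_FCOR)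
    (hNRM : St_FNRM) (hU0 : St_FU0) (hSUM : St_FSUM) (hRBX : St_FRBX) (hLOC : St_FLOC)
    (hDS : St_FDS) (hDT : St_FDT) (hFST : St_FST) (hBAS : RAF.St_BAS) (hBASF : RAF.St_BASF) :
    St_F := by
  intro q k j p d M _ _ Λ _ g f L φ μ V ρ x₀ Φ δ c O H σ N ψ δ' c₁ i₀ ix e a R m θ s a₁ R₁ W P dP hP
    hS hLw hq hK hf hb hn hp he hc h2 hδ hθ hA
  have ha₁ : a₁ ∈ ball a R := h2 (mem_ball_self hA.r0)
  have hf0 : f (e.symm a₁) i₀ ≠ 0 := (he.pt a₁ ha₁).2.1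
  obtain ⟨S, N₁, hC, hL, hne, hlg, hfr⟩ := hCOR q k j p d M Λ g f O H i₀ ix e a R m θ a₁ R₁ W P dP
    hP he hc.so h2 hθ hA
  obtain ⟨c0, C0, -, -, hbd⟩ := hc.bd
  obtain ⟨W₂, hW, hW₂, hW3, l1, l2, l3⟩ := hNRM _ M _ f i₀ m θ W S N₁ C0 hP.map hc.so
    (fun x => (hbd x).1) ⟨_, hθ, hf0⟩ hC hne hlg hfr
  obtain ⟨o0, ms, cv, C1, b1, b2⟩ := hU0 _ k M _ f L φ ρ _ i₀ m θ s hP.map hc ⟨_, hf0⟩ hf.z0
  obtain ⟨u, hu⟩ : ∃ u, u = lgs M φ 1 s := ⟨_, rfl⟩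
  rw [← hu] at b1
  have hu1 : ∀ x, θ x ≠ 0 → f x i₀ ≠ 0 → AnAt M u x ∧ EqAt M (M.hs u) (-M.hw φ) x := by
    intro x h1 h3
    have := ((hSEC _ 1 M L _ _).1 ms).2.2 φ hLw hS.an o0 x ⟨h1, h3⟩
    rw [← hu] at this
    exact ⟨this.1, by simpa using this.2.1⟩
  have hu2 : ∀ x, θ x ≠ 0 → f x i₀ ≠ 0 → NPot M φ u x := fun x h1 h3 =>
    (o0.eventually_mem (x := x) ⟨h1, h3⟩).mono fun y hy => hu1 y hy.1 hy.2
  obtain ⟨C2, -, hlin⟩ := hf.lin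
  have hC₂ : Cor M W₂ S N₁ := ⟨hW₂, fun x hx => hC.sh x (hW hx), fun x hx => hC.card x (hW hx)⟩
  have lu : LogT M W₂ u := AF.logT_abs l2 l3 fun x hx => b1 x (hW3 x hx).1 (hW3 x hx).2.1
  have lu' : LogS M W₂ S fun _ y => u y :=
    ((hLG _ M W₂ S).2.1 _ l1).2.2.2 _ _ C1 (((hLG _ M W S).2.1 _ hlg).1 W₂ hW₂)
      fun x hx y hy => b1 y ((hW3 x hx).2.2 y hy) (hne x (hW hx) y hy)
  obtain ⟨hC2, hg, hg0, lg0⟩ := hSUM _ k M ρ (mu0 Φ 0) u (fun x => Real.log (no f m θ x)) W₂ S N₁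
    (max C1 C2) hf.ja hf.z0
    (fun ξ x => (hlin ξ x).trans (mul_le_mul_of_nonneg_right (le_max_right _ _) (norm_nonneg _)))
    hC₂ (fun x hx => ⟨cv x (hW3 x hx).1, (hu1 x (hW3 x hx).1 (hW3 x hx).2.1).1, fun y hy =>
      ⟨cv y ((hW3 x hx).2.2 y hy), (hu1 y ((hW3 x hx).2.2 y hy) (hne x (hW hx) y hy)).1⟩⟩)
    (fun x hx y hy ξ h => (b2 x y ξ (hW3 x hx).1 ((hW3 x hx).2.2 y hy) h).trans
      (mul_le_mul_of_nonneg_right (le_max_left _ _) (by positivity))) l2 lu l1 lu'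
  have n0 : 0 < q + j := by omega
  choose mi qi li fi Wi ci q0 q0a lin cot sub mer eq using
    fun i => hFST _ M _ W₂ _ n0 hS.kae hW₂ (hg i).1 (hg i).2
  obtain ⟨m0, q1, l0, f0, W0, c0', q2, q3, lin0, cot0, sub0, mer0, eq0⟩ :=
    hFST _ M _ W₂ _ n0 hS.kae hW₂ hg0 lg0
  have cW : Cothin M (W0 ∩ ⋂ i, Wi i) := M86.cot_inter cot0 (M86.cot_iInter cot)
  obtain ⟨W', hW'⟩ : ∃ W', W' = W0 ∩ ⋂ i, Wi i := ⟨_, rfl⟩
  rw [← hW'] at cW
  have s0 : W' ⊆ W0 := hW' ▸ inter_subset_left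
  have si : ∀ i, W' ⊆ Wi i := fun i => hW' ▸ inter_subset_right.trans (iInter_subset _ i)
  have s2 : W' ⊆ W₂ := s0.trans sub0
  have tg : ∀ z ∈ ball a₁ R₁, z ∈ e.target := fun z hz => he.sub (h2 hz)
  have op : IsOpen (e.symm '' ball a₁ R₁) :=
    e.symm.isOpen_image_of_subset_source isOpen_ball tg
  obtain ⟨x₂, ⟨z, hz, rfl⟩, hx⟩ := (M86.cot_dense cW).inter_open_nonempty _ op
    ⟨_, a₁, mem_ball_self hA.r0, rfl⟩
  have hzt := tg z hz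
  have hxs := e.map_target hzt
  have hez : e (e.symm z) = z := e.right_inv hzt
  have hxO := (he.pt z (h2 hz)).1
  have hx2 := s2 hx
  have near : ∀ᶠ x in 𝓝 (e.symm z), x ∈ W' ∧ ∃ w ∈ ball a₁ R₁, e.symm w = x :=
    (cW.1.eventually_mem hx).and (op.eventually_mem ⟨z, hz, rfl⟩)
  obtain ⟨r1, r2'⟩ := hRBX q k j M _ f φ ρ (mu0 Φ 0) Φ δ O H ψ δ' c₁ i₀ ix e a R u a₁ z hp he ha₁
    (h2 hz)
  have y1 := hL.mem z hz (hW hx2)
  have y2 := (hW3 _ hx2).2.2 _ y1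
  have y3 : yy M e a₁ (e.symm z) ∈ Sel (HM M) S (TR M ρ u) (e.symm z) :=
    ⟨yy M e a₁, ⟨r1, near.mono fun x ⟨h1, w, h3, h4⟩ => h4 ▸ hL.mem w h3 (h4 ▸ hW (s2 h1))⟩, rfl,
      r2' (cv _ y2) (hu2 _ (hW3 _ hx2).1 (hW3 _ hx2).2.1) (hu2 _ y2 (hne _ (hW hx2) _ y1))⟩
  obtain ⟨β, F, hloc⟩ := hLOC q k j M _ f φ ρ (mu0 Φ 0) Φ δ O H ψ δ' c₁ i₀ ix e a R u S z hp he
    (h2 hz) (hC₂.sh _ hx2) (hC2.sh _ hx2) (hL.bas z hz (hW hx2))
    fun y hy => cv y ((hW3 _ hx2).2.2 y hy)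
  have N0 : 0 < (Sel (HM M) S (TR M ρ u) (e.symm z)).ncard :=
    (ncard_pos (hC2.sh _ hx2).finite).2 ⟨_, y3⟩
  obtain ⟨N₂, hN₂⟩ : ∃ N₂, N₂ = (Sel (HM M) S (TR M ρ u) (e.symm z)).ncard := ⟨_, rfl⟩
  rw [← hN₂] at hloc N0
  have wad := (st_WAD st_TV _ k j M φ μ Φ δ c hS.wt hS.an hb.tv).2.1 H
  have hpj : ‖pj (H (e.symm z))‖ < δ := ((TVB.pj_norm _).trans_lt (hδ z (h2 hz))).trans
    (half_lt_self hb.tv.d0)
  have an : ∀ i x, AnAt M (μ i) x := fun i x => (hK.kp i x).1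
  -- the section
  let ν : Fin (m0 + 1) → ℕ := fun i => (if i = 0 then q1 * N₂ else 0) * 1
  let s' : Fin (m0 + 1) → M.Fam ℂ := fun i e z =>
    f0 i (e.symm z) * s e z ^ (if i = 0 then q1 * N₂ else 0)
  have ms' : MerSec M L 1 s W' := ((hSEC _ 1 M L _ _).1 ms).1 W'
    fun x hx => ⟨(hW3 x (s2 hx)).1, (hW3 x (s2 hx)).2.1⟩
  have hs' : ∀ i, MerSec M L (ν i) (s' i) W' := fun i => ((hSEC _ 1 M L _ _).1 ms').2.1 (f0 i) _
    (mer0 i) fun x hx => (eq0 x (s0 hx)).1 i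
  have bs := hBAS _ k j N M _ L _ φ μ Φ δ c H (e.symm z) W' l0 ν s' (fun t => F t - c0') hS hLw an
    hb.tv
    hn (hb.adm _ hxO) (hb.sub _ hxO) hpj cW hx lin0 hs' (by
      filter_upwards [hloc, near] with x h1 h3
      have e1 : ∀ i, RAF.hn M φ (ν i) (s' i) x = Real.log (normSq (f0 i x)) +
          ((if i = 0 then q1 * N₂ else 0 : ℕ) : ℝ) * u x := fun i => by
        have t1 := normSq_pos.2 ((eq0 x (s0 h3.1)).1 i).2
        have t2 := normSq_pos.2 (KA.at_ch (ms'.hol x h3.1)).2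
        simp only [RAF.hn, hu, lgs, Mf.ev, ν, s', (M.ch x).left_inv (Mf.mem_ch x), map_mul, map_pow]
        rw [Real.log_mul t1.ne' (pow_pos t2 _).ne', Real.log_pow]
        push_cast
        ring
      have e2 : (q1 : ℝ) ≠ 0 := Nat.cast_ne_zero.2 q2.ne'
      simp only [e1, mul_add, Finset.sum_add_distrib]
      rw [← h1.2, (eq0 x (s0 h3.1)).2, Finset.sum_eq_single (0 : Fin (m0 + 1))
        (f := fun i => l0 i * (((if i = 0 then q1 * N₂ else 0 : ℕ) : ℝ) * u x))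
        (fun i _ hi => by simp [hi]) (by simp), q3]
      simp only [if_true]
      push_cast
      field_simp
      ring) 0
  -- the functions
  have bf := fun i => hBASF _ k j N M _ L _ φ μ Φ δ c H (e.symm z) W' (li i) (fi i)
    (fun t => N₂ * r2 (fx t) i + β i (sx t) - ci i) hS hLw an hb.tv hn (hb.adm _ hxO) (hb.sub _ hxO)
    hpj cW hx (lin i) (fun b => ⟨mer i b, fun x hx => (eq i x (si i hx)).1 b⟩) (by
      filter_upwards [hloc, near] with x h1 h3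
      rw [AF.sx_pj, AF.r2_pj, ← h1.1 i, (eq i x (si i h3.1)).2]
      ring)
  let A : (Fin (p + (q + j) + 1) × ℕ) ⊕ (Σ i, Fin (mi i + 1)) → M.X → ℂ :=
    Sum.elim (fun l x => (P l.1 x).coeff l.2) fun b => fi b.1 b.2
  have hA1 : ∀ b, ∀ x ∈ W', HolAt M (A b) x := by
    rintro (l | b) x hx
    · exact hA.hol l.1 l.2 x (hW (s2 hx))
    · exact ((eq b.1 x (si _ hx)).1 b.2).1
  have hA2 : ∀ b, Mer M (A b) := by
    rintro (l | b)
    · exact hA.mer l.1 l.2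
    · exact mer b.1 b.2
  have hA3 : ∀ b, ∀ᶠ y in 𝓝 (e.symm z), Kil M φ (A b) y := by
    rintro (l | b)
    · filter_upwards [near] with y ⟨h1, w, h3, h4⟩
      subst h4
      have t1 := tg w h3
      have t2 := (he.pt w (h2 h3)).1
      refine (hKIL _ M φ _ hS.wt).1 _ e (hA1 _ _ h1) he.mem (e.map_target t1) fun v hv => ?_
      rw [e.right_inv t1] at hv ⊢
      have t3 := hDS q k j p d M Λ g f O H i₀ ix e a R a₁ R₁ W P dP w v hP he h2 hA h3 (hW (s2 h1))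
      have t4 := (KA.at_tgt he.mem t1 (wad _ (hb.adm _ t2).iso (hb.adm _ t2).val).2.2).2.2 v
      refine t3.1.2 ?_ l.1 l.2
      rw [← t3.2 (hb.adm _ t2).iso.1, t4.1 hv]
      rfl
    · exact bf b.1 b.2
  obtain ⟨iτ, hτ⟩ := hSEL _ _ M _ A H (e.symm z) e he.mem hxs (fun b => hA1 b _ hx)
    (hb.sub _ hxO) fun v hv => by
      rw [hez] at hv ⊢
      have t3 := hDS q k j p d M Λ g f O H i₀ ix e a R a₁ R₁ W P dP z v hP he h2 hA hz (hW hx2)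
      have t4 := t3.1.1 fun l i => hv (Sum.inl (l, i))
      have t5 := (t3.2 (hb.adm _ hxO).iso.1).trans t4
      refine TVB.ext2 (fun i => ?_) fun l => congrFun t5 l
      refine hDT q k j _ M _ f O H i₀ ix e a R z v i N₂ (ci i) (β i) (li i) (fi i) he (h2 hz)
        (hb.adm _ hxO).iso.1 (Nat.cast_ne_zero.2 N0.ne') (fun b => ⟨((eq i _ (si i hx)).1 b).1,
          ((eq i _ (si i hx)).1 b).2, hv (Sum.inr ⟨i, b⟩)⟩) ?_ t4
      filter_upwards [hloc, near] with x h1 h3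
      rw [← h1.1 i, (eq i x (si i h3.1)).2]
  have hτ1 : ∀ x ∈ W', HolAt M (fun y i => A (iτ i) y) x := fun x hx =>
    holAt_pi.2 fun i => hA1 _ x hx
  refine ⟨e.symm z, fun y i => A (iτ i) y, W', ν 0, s' 0, by simp [ν, q2, N0], cW, hx,
    (wad _ (hb.adm _ hxO).iso (hb.adm _ hxO).val).1.1 (hb.sub _ hxO), fun i => hA2 _, hτ1, hτ,
    hs' 0, ?_, bs⟩
  filter_upwards [eventually_all.2 fun i => hA3 (iτ i), near] with y h1 h3
  exact (hKIL _ M φ y hS.wt).2.1 _ _ (hτ1 y h3.1) h1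

end Pool.Agent.Lib.RA
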