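import Pool.Agent.Lib.RYF.BlueS
import Pool.Agent.Lib.RA.T_FIB
import Pool.Agent.Lib.RY.B_TV

/-! Project ra2: descent of analyticity to the tube. -/

open scoped Classical Topology ContDiff ComplexOrder Matrix
open Set MeasureTheory Complex Metric Filter

noncomputable section

namespace Pool.Agent.Lib.RAF

open Pool.Agent.Lib.SV (E nsq)
open Pool.Agent.Lib.HS32 Pool.Agent.Lib.RA

theorem st_DESC : St_DESC := by
  intro n k j M H x₁ w F hH hS hw hF
  have hx := Mf.mem_ch x₁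
  have e1 : (H ∘ (M.ch x₁).symm) (M.ch x₁ x₁) = H x₁ := by simp [(M.ch x₁).left_inv hx]
  obtain ⟨s, s1, s2, s3, -⟩ := st_FIB _ _ (H ∘ (M.ch x₁).symm) (M.ch x₁ x₁)
    (ANB.analyticAt (KA.at_ch hH)) (KA.at_ch hS)
  rw [e1] at s1 s2 s3
  have h1 : AnalyticAt ℝ (w ∘ (M.ch x₁).symm) (s (H x₁)) := by
    rw [s2]
    exact KA.at_ch hw
  have h2 : ∀ᶠ z in 𝓝 (s (H x₁)), w ((M.ch x₁).symm z) = F (pj (H ((M.ch x₁).symm z))) := by
    rw [s2]
    exact (KA.ev_iff hx).1 hF
  have h3 : AnalyticAt ℝ (fun t => F (pj t)) (H x₁) := by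
    refine (h1.comp s1.restrictScalars).congr ?_
    filter_upwards [s1.continuousAt.eventually h2, s3] with a a1 a2
    exact a1.trans (congrArg (fun b => F (pj b)) a2)
  obtain ⟨ε, hε, h4⟩ := Metric.eventually_nhds_iff.1 h3.eventually_analyticAt
  refine ⟨ε, hε, fun t ht => ?_⟩
  have hs : ∀ a b : E (k + j), pj (a - b) = pj a - pj b := fun a b => (TVB.pjL k j).map_sub a b
  have h5 : AnalyticAt ℝ (fun t => F (pj t)) (t + ((H x₁ - pj (H x₁)) - (t - pj t))) := by
    refine h4 ?_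
    rw [dist_eq_norm, show t + ((H x₁ - pj (H x₁)) - (t - pj t)) - H x₁ = pj t - pj (H x₁) by abel]
    exact ht
  have h6 : AnalyticAt ℝ (fun t' : E (k + j) => t' + ((H x₁ - pj (H x₁)) - (t - pj t))) t :=
    analyticAt_id.add analyticAt_const
  refine (AnalyticAt.comp (f := fun t' => t' + ((H x₁ - pj (H x₁)) - (t - pj t))) h5 h6).congr
    (Eventually.of_forall fun a => ?_)
  simp [TVB.pj_add, hs, TVB.pj_pj]

end Pool.Agent.Lib.RAF
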