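import Pool.Agent.Lib.RYF.B_FRBX
import Pool.Agent.Lib.RY.T_SHM

/-! Project ra2, step F: the correspondence defined by the algebraic equations. -/

open scoped Classical Topology ContDiff
open Set Complex Metric Filter

set_option linter.unusedVariables false

noncomputable section

namespace Pool.Agent.Lib.RA

open Pool.Agent.Lib.SV (E nsq)
open Pool.Agent.Lib.HS32 Pool.Agent.Lib.PN

namespace FCOR

open M86 S86 FRBX

variable {q j : ℕ}

theorem app_self (z : E (q + j)) : (Fin.append (fx z) (sx z) : E (q + j)) = z :=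
  Fin.append_castAdd_natAdd

/-- A function whose derivatives in the first coordinates vanish. -/
theorem const_fx {c : E (q + j) → ℂ} {z : E (q + j)}
    (h : ∀ᶠ w in 𝓝 z, DifferentiableAt ℂ c w ∧
      ∀ a : Fin q, fderiv ℂ c w (Pi.single (Fin.castAdd j a) 1) = 0) :
    ∀ᶠ w in 𝓝 z, c w = c (Fin.append (fx z) (sx w)) := by
  obtain ⟨r, r0, hr⟩ := Metric.eventually_nhds_iff_ball.1 h
  filter_upwards [ball_mem_nhds z r0] with w hw
  have hp := app_mem (mem_ball_self r0) hw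
  generalize hp' : (Fin.append (fx z) (sx w) : E (q + j)) = p at hp
  have h1 : ∀ t ∈ Icc (0 : ℝ) 1, HasDerivAt (fun t : ℝ => c (p + t • (w - p))) 0 t := fun t ht => by
    have h2 := hr _ ((convex_ball z r).add_smul_sub_mem hp hw ht)
    have h3 : HasDerivAt (fun t : ℝ => p + t • (w - p)) (w - p) t := by
      simpa using ((hasDerivAt_id t).smul_const (w - p)).const_add p
    have h4 := (h2.1.hasFDerivAt.restrictScalars ℝ).comp_hasDerivAt t h3
    refine h4.congr_deriv ?_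
    have h5 := h2.2
    generalize fderiv ℂ c (p + t • (w - p)) = L at h5 ⊢
    rw [ContinuousLinearMap.coe_restrictScalars', pi_eq_sum_univ' (w - p), map_sum,
      Fin.sum_univ_add]
    simp [h5, ← hp', sx]
  have := constant_of_has_deriv_right_zero (fun t ht => (h1 t ht).continuousAt.continuousWithinAt)
    (fun t ht => (h1 t (Ico_subset_Icc_self ht)).hasDerivWithinAt) 1 (right_mem_Icc.2 zero_le_one)
  simpa using this

variable {M : Mf (q + j)} {e : M.Ch} {a c z : E (q + j)} {R : ℝ}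

theorem yy_eq (hs : ball a R ⊆ e.target) (hz : z ∈ ball a R) :
    yy M e c (e.symm z) = e.symm (Fin.append (fx c) (sx z)) := by
  rw [yy, e.right_inv (hs hz)]

theorem hm_yy (he : e ∈ M.C) (hs : ball a R ⊆ e.target) (hc : c ∈ ball a R) (hz : z ∈ ball a R) :
    HM M (e.symm z) (yy M e c) := by
  have hzt := hs hz
  have hAt := hs (app_mem hc hz)
  refine ⟨?_, fun e' he' hy => KA.holAt_of' he hzt ?_⟩
  · refine ContinuousAt.comp (g := e.symm)
      (f := fun x => (Fin.append (fx c) (sx (e x)) : E (q + j))) ?_ ?_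
    · rw [e.right_inv hzt]
      exact e.continuousAt_symm hAt
    · exact (app_diff c).continuous.continuousAt.comp (e.continuousAt (e.map_target hzt))
  · rw [yy_eq hs hz] at hy
    have h1 := KA.hol_tr he' he hy (e.map_target hAt)
    rw [e.right_inv hAt] at h1
    refine KA.holN_congr (KA.holN_comp (K := e' ∘ e.symm)
      (H := fun w : E (q + j) => (Fin.append (fx c) (sx w) : E (q + j))) h1
      (Eventually.of_forall fun w => app_diff c w)) ?_
    filter_upwards [isOpen_ball.mem_nhds hz] with w hw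
    simp only [Function.comp, yy_eq hs hw]

theorem hol_eval {n : ℕ} {M : Mf n} {ι : Type} [Fintype ι] {Y : M.X → ι → ℂ} {x : M.X}
    (h : HolAt M Y x) (p : MvPolynomial ι ℂ) : HolAt M (fun y => MvPolynomial.eval (Y y) p) x := by
  simp only [MvPolynomial.eval_eq']
  exact holAt_sum fun d _ => (holAt_const _).mul (holAt_prod fun i _ => (holAt_pi.1 h i).pow _)

theorem log_nsq {ι : Type} [Fintype ι] {Y : ι → ℂ} {i₀ : ι} (h : Y i₀ = 1) {B : ℝ} (hB : ‖Y‖ ≤ B) :
    |Real.log (nsq Y)| ≤ (2 + Fintype.card ι) * (1 + Real.log (1 + ‖B‖)) := by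
  have h1 : 1 ≤ nsq Y := by
    simpa [h, nsq] using Finset.single_le_sum (f := fun i => normSq (Y i)) (fun i _ => normSq_nonneg _)
      (Finset.mem_univ i₀)
  have h2 : nsq Y ≤ Fintype.card ι * (1 + ‖B‖) ^ 2 := by
    refine (Finset.sum_le_card_nsmul _ _ ((1 + ‖B‖) ^ 2) fun i _ => ?_).trans (by simp)
    rw [normSq_eq_norm_sq]
    exact pow_le_pow_left₀ (norm_nonneg _) ((norm_le_pi_norm Y i).trans
      (hB.trans ((le_abs_self B).trans (by simp)))) 2
  have h3 : (0 : ℝ) < Fintype.card ι := Nat.cast_pos.2 (Fintype.card_pos_iff.2 ⟨i₀⟩)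
  have h4 := Real.log_le_log (by linarith) h2
  have h5 := Real.log_le_sub_one_of_pos h3
  have h6 := Real.log_nonneg (show 1 ≤ 1 + ‖B‖ by simp)
  rw [Real.log_mul h3.ne' (by positivity), Real.log_pow] at h4
  rw [abs_of_nonneg (Real.log_nonneg h1)]
  push_cast at h4
  nlinarith

end FCOR

open FCOR M86 S86 FRBX in
theorem st_FCOR (hHM : St_FHM) (hINV : St_FINV) : St_FCOR := by
  intro q k j p d M _ Λ _ g f O H i₀ ix e a R m θ a₁ R₁ W P dP hP hE hθ hb h0 hA
  obtain ⟨κ, k1, k2, k3⟩ := hINV _ p d M Λ g f i₀ hP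
  obtain ⟨gp, m2, -⟩ := hHM _ M
  obtain ⟨r1, B, r2, r3⟩ := alg_rt hA
  have he := hE.mem
  have hs : ball a₁ R₁ ⊆ e.target := hb.trans hE.sub
  have hc := mem_ball_self (x := a₁) hA.r0
  let I : (Fin (p + (q + j) + 1) → ℂ) → Prop := fun Y => ∃ y, f y i₀ ≠ 0 ∧ Y = af f i₀ y
  let T : M.X → (M.X → Fin (p + (q + j) + 1) → ℂ) → Prop := fun x Y =>
    (∀ᶠ x' in 𝓝 x, I (Y x')) ∧ ∃ᶠ x' in 𝓝 x, θ (κ (Y x')) ≠ 0
  have i1 : ∀ Y, I Y → f (κ Y) i₀ ≠ 0 ∧ af f i₀ (κ Y) = Y := by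
    rintro _ ⟨y, h1, rfl⟩
    rw [k1 y h1]
    exact ⟨h1, rfl⟩
  have hT : ∀ x Y Y', Y =ᶠ[𝓝 x] Y' → T x Y → T x Y' := fun x Y Y' e h =>
    ⟨(h.1.and e).mono fun _ a => a.2 ▸ a.1, (h.2.and_eventually e).mono fun _ a => a.2 ▸ a.1⟩
  have hAN : ∀ x Y, HolAt M Y x → (∀ᶠ x' in 𝓝 x, T x' Y) ∨ ∀ᶠ x' in 𝓝 x, ¬ T x' Y := by
    intro x Y hY
    by_cases h1 : ∃ᶠ x' in 𝓝 x, T x' Y
    · have h2 : ∀ᶠ x' in 𝓝 x, I (Y x') := by
        have h3 := ((holAt_pi.1 hY i₀).sub (holAt_const 1)).zero_of_freq (h1.mono fun y a =>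
          a.1.mono fun w b => sub_eq_zero.2 ((k2 _).1 b).1)
        have h4 := eventually_all.2 fun l => (hol_eval hY (g l)).zero_of_freq
          (h1.mono fun y a => a.1.mono fun w b => ((k2 _).1 b).2 l)
        filter_upwards [h3, h4] with y a b using (k2 _).2 ⟨sub_eq_zero.1 a, b⟩
      have h3 := (m2 x _ (k3 x Y hY h2)).1 ℂ _ (hθ _ i₀ (i1 _ h2.self_of_nhds).1)
      have h4 := h3.nz_near (((frequently_frequently_nhds.1 (h1.mono fun y a => a.2)).and_eventually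
        h2).mono fun y a => div_ne_zero a.1 (pow_ne_zero _ (i1 _ a.2).1))
      refine Or.inl ?_
      filter_upwards [h2.eventually_nhds, h4] with y a b
      exact ⟨a, b.mono fun w c => (div_ne_zero_iff.1 c).1⟩
    · exact Or.inr (not_frequently.1 h1)
  have i2 : ∀ x, ∀ Y ∈ Sel (HQ M _) (RT P) T x, I Y := by
    rintro x _ ⟨Y, -, rfl, h⟩
    exact h.1.self_of_nhds
  have sh : ∀ x ∈ W, ∃ (n : ℕ) (Y : Fin n → M.X → Fin (p + (q + j) + 1) → ℂ),
      Shs (HQ M _) (RT P) x Y ∧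
      Shs (HQ M _) (Sel (HQ M _) (RT P) T) x (fun i : {i // T x (Y i)} => Y i) ∧
      Shs (HM M) (fun x => κ '' Sel (HQ M _) (RT P) T x) x
        fun (i : {i // T x (Y i)}) x' => κ (Y i x') := fun x hx => by
    obtain ⟨n, Y, hY⟩ := (r1 x hx).1
    have h1 := hY.sel gp_hol hT fun i => hAN x _ (hY.q i)
    refine ⟨n, Y, hY, h1, fun i => k3 x _ (hY.q i) i.2.1, ?_⟩
    filter_upwards [h1.ev, eventually_all.2 fun i : {i // T x (Y i)} => i.2.1] with y a b
    refine ⟨fun i i' c => a.1 ?_, by rw [a.2, ← range_comp]; rfl⟩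
    exact (i1 _ (b i)).2.symm.trans ((congrArg (af f i₀) c).trans (i1 _ (b i')).2)
  refine ⟨fun x => κ '' Sel (HQ M _) (RT P) T x, ∏ l, dP l, ⟨hA.cot, fun x hx => ?_, fun x hx => ?_⟩,
    ⟨fun z hz hW => ?_, fun z hz hW => ?_⟩, ?_, ?_, fun x hx y hy => ?_⟩
  · obtain ⟨n, Y, -, -, h⟩ := sh x hx
    exact h.shAt
  · have h1 := (r1 x hx).1.finite
    exact (ncard_image_le (h1.subset (sel_subset x))).trans
      ((ncard_le_ncard (sel_subset x) h1).trans (r1 x hx).2.le)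
  · have h1 : ∀ w ∈ ball a₁ R₁, f (yy M e a₁ (e.symm w)) i₀ ≠ 0 := fun w hw => by
      rw [yy_eq hs hw]
      exact (hE.pt _ (hb (app_mem hc hw))).2.1
    have h2 := fun w hw => hm_yy (c := a₁) (z := w) he hs hc hw
    have h3 : ∀ᶠ x' in 𝓝 (e.symm z), f (yy M e a₁ x') i₀ ≠ 0 :=
      (KA.ev_iff' (hs hz)).2 (mem_of_superset (isOpen_ball.mem_nhds hz) h1)
    have h4 : ∀ w ∈ ball a₁ R₁,
        HolAt M (fun x => θ (yy M e a₁ x) / f (yy M e a₁ x) i₀ ^ m) (e.symm w) := fun w hw =>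
      (m2 _ _ (h2 w hw)).1 ℂ _ (hθ _ i₀ (h1 w hw))
    have h5 : ∃ᶠ x' in 𝓝 (e.symm z), θ (yy M e a₁ x') ≠ 0 := fun h5 => by
      have h6 := (holAt_eqOn_zero (O := e.symm '' ball a₁ R₁)
        ((convex_ball a₁ R₁).isPreconnected.image _ (e.continuousOn_symm.mono hs))
        (by rintro _ ⟨w, hw, rfl⟩; exact h4 w hw) (mem_image_of_mem _ hz)
        (h5.mono fun y a => by simp [not_not.1 a]) _ (mem_image_of_mem _ hc)).self_of_nhds
      refine (div_ne_zero ?_ (pow_ne_zero m (h1 _ hc))) h6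
      rwa [yy_eq hs hc, app_self]
    refine ⟨af f i₀ (yy M e a₁ (e.symm z)), ⟨fun x => af f i₀ (yy M e a₁ x),
      ⟨(m2 _ _ (h2 z hz)).1 _ _ (pm_hol hP.map (h1 z hz)), ?_⟩, rfl,
      h3.mono fun y a => ⟨_, a, rfl⟩, (h5.and_eventually h3).mono fun y a => ?_⟩, k1 _ (h1 z hz)⟩
    · refine (KA.ev_iff' (p := fun x => af f i₀ (yy M e a₁ x) ∈ RT P x) (hs hz)).2 ?_
      filter_upwards [isOpen_ball.mem_nhds hz,
        (KA.ev_iff' (p := fun x => x ∈ W) (hs hz)).1 (hA.cot.1.mem_nhds hW)] with w a b l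
      rw [yy_eq hs a]
      exact hA.root w a b l
    · rw [k1 _ a.2]
      exact a.1
  · obtain ⟨n, Y, hY, h1, -⟩ := sh _ hW
    have h2 := (hm_yy (c := z) he hs hz hz).1
    have h3 : yy M e z (e.symm z) = e.symm z := by rw [yy_eq hs hz, app_self]
    have h4 : Tendsto (yy M e z) (𝓝 (e.symm z)) (𝓝 (e.symm z)) := by
      simpa only [ContinuousAt, h3] using h2
    have h5 : ∀ᶠ x in 𝓝 (e.symm z), ∀ l, P l x = P l (yy M e z x) := by
      refine eventually_all.2 fun l => (KA.ev_iff' (p := fun x => P l x = P l (yy M e z x))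
        (hs hz)).2 ?_
      have h6 : ∀ᶠ w in 𝓝 z, ∀ i : Fin (dP l + 1), (P l (e.symm w)).coeff i =
          (P l (e.symm (Fin.append (fx z) (sx w)))).coeff i := eventually_all.2 fun i => by
        refine const_fx (c := fun w => (P l (e.symm w)).coeff i) ?_
        filter_upwards [isOpen_ball.mem_nhds hz,
          (KA.ev_iff' (p := fun x => x ∈ W) (hs hz)).1 (hA.cot.1.mem_nhds hW)] with w a b
        exact ⟨(KA.at_tgt he (hs a) (hA.hol l i _ b)).self_of_nhds, hA.bas w a b l i⟩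
      filter_upwards [h6, isOpen_ball.mem_nhds hz] with w a b
      rw [yy_eq hs b]
      exact (Polynomial.ext_iff_natDegree_le (hA.mon l _).2.le (hA.mon l _).2.le).2 fun i hi =>
        a ⟨i, Nat.lt_succ_of_le hi⟩
    have h6 : ∀ i, (fun x => Y i (yy M e z x)) =ᶠ[𝓝 (e.symm z)] Y i := fun i => by
      refine hY.eq_sheet gp_hol (ContinuousAt.comp (by rw [h3]; exact (hY.q i).cont) h2) ?_
        (congrArg (Y i) h3)
      filter_upwards [h5, h4.eventually (hY.sct i).2] with x a b l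
      rw [a l]
      exact b l
    filter_upwards [h1.ev, h4.eventually h1.ev, eventually_all.2 h6] with x a b c
    rw [a.2, b.2]
    simp only [c]
  · rintro x - _ ⟨Y, hY, rfl⟩
    exact (i1 _ (i2 x Y hY)).1
  · intro x
    obtain ⟨O', δ, C, h1, h2, h3⟩ := logT_of_tame (g := fun x =>
      (2 + Fintype.card (Fin (p + (q + j) + 1))) * (1 + Real.log (1 + ‖B x‖))) r2
      (C := 2 + Fintype.card (Fin (p + (q + j) + 1))) (fun x _ => (abs_of_nonneg (mul_nonneg
        (by positivity) (add_nonneg zero_le_one (Real.log_nonneg (by simp))))).le) x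
    refine ⟨O', δ, C, h1, h2, fun x' a b => ⟨(h3 x' a b).1, ?_⟩⟩
    rintro _ ⟨Y, hY, rfl⟩
    simp only [(i1 _ (i2 _ Y hY)).2]
    exact (log_nsq ((k2 _).1 (i2 _ Y hY)).1 ((r3 x').2 Y (sel_subset _ hY))).trans
      ((le_abs_self _).trans (h3 x' a b).2)
  · obtain ⟨n, Y, -, -, h⟩ := sh x hx
    obtain ⟨i, hi⟩ := h.exists_sheet gp hy.1.1 hy.2
    exact (i.2.2.and_eventually hi).mono fun w a => a.2 ▸ a.1

end Pool.Agent.Lib.RA
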