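import Pool.Agent.Lib.RYF.BlueF
import Pool.Agent.Lib.RY.K_At
import Pool.Agent.Lib.RY.B_DEP

/-! Project ra2, step F: the coefficients determine the plaque to first order. -/

open scoped Classical Topology
open Set Complex Metric Filter

noncomputable section

namespace Pool.Agent.Lib.RA

open Pool.Agent.Lib.SV (E nsq)
open Pool.Agent.Lib.HS32 Pool.Agent.Lib.PN Pool.Agent.Lib.UR.M

namespace FDS

/-- A simple root is stationary when the coefficients are. -/
theorem root_deriv {d : ℕ} {P : ℂ → Polynomial ℂ} {Y : ℂ → ℂ} {Y' : ℂ}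
    (hd : ∀ t, (P t).natDegree = d) (hc : ∀ i, HasDerivAt (fun t => (P t).coeff i) 0 0)
    (hY : HasDerivAt Y Y' 0) (h0 : ∀ᶠ t in 𝓝 0, (P t).eval (Y t) = 0) (hs : (P 0).Separable) :
    Y' = 0 := by
  have h1 : HasDerivAt (fun t => ∑ i ∈ Finset.range (d + 1),
      ((P t).coeff i - (P 0).coeff i) * Y t ^ i) 0 0 := by
    simpa using HasDerivAt.fun_sum (u := Finset.range (d + 1))
      fun i _ => ((hc i).sub_const ((P 0).coeff i)).fun_mul (hY.fun_pow i)
  have h2 := ((P 0).hasDerivAt (Y 0)).comp 0 hY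
  have h3 : HasDerivAt (fun _ : ℂ => (0 : ℂ)) (0 + (P 0).derivative.eval (Y 0) * Y') 0 := by
    refine (h1.fun_add h2).congr_of_eventuallyEq (h0.mono fun t ht => ?_)
    rw [Polynomial.eval_eq_sum_range, hd] at ht
    simp only [Function.comp, Polynomial.eval_eq_sum_range, hd, ← Finset.sum_add_distrib]
    rw [← ht]
    exact Finset.sum_congr rfl fun i _ => by ring
  have h4 := h3.unique (hasDerivAt_const _ _)
  have h5 : (P 0).derivative.eval (Y 0) ≠ 0 :=
    hs.eval₂_derivative_ne_zero (RingHom.id ℂ) h0.self_of_nhds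
  simpa [h5] using h4

theorem line {n : ℕ} {F : Type} [NormedAddCommGroup F] [NormedSpace ℂ F] {G : E n → F}
    {z : E n} (v : E n) (h : DifferentiableAt ℂ G z) :
    HasDerivAt (fun t : ℂ => G (z + t • v)) (fderiv ℂ G z v) 0 := by
  have h1 : HasDerivAt (fun t : ℂ => z + t • v) v 0 := by
    simpa using ((hasDerivAt_id (0 : ℂ)).smul_const v).const_add z
  exact HasFDerivAt.comp_hasDerivAt_of_eq (0 : ℂ) h.hasFDerivAt h1 (by simp)

variable {q j : ℕ}

theorem app_line (c : E q) (z v : E (q + j)) (t : ℂ) :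
    (Fin.append c (sx (z + t • v)) : E (q + j)) =
      Fin.append c (sx z) + t • (Fin.append 0 (sx v) : E (q + j)) := by
  funext i
  refine Fin.addCases (fun a => ?_) (fun a => ?_) i <;> simp [sx]

theorem dec {v : E (q + j)} (h : sx v = 0) :
    v = ∑ a : Fin q, v (Fin.castAdd j a) • (Pi.single (Fin.castAdd j a) 1 : E (q + j)) := by
  conv_lhs => rw [pi_eq_sum_univ' v, Fin.sum_univ_add]
  have : ∀ l, v (Fin.natAdd q l) = 0 := fun l => congrFun h l
  simp [this]

end FDS

theorem st_FDS : St_FDS := by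
  intro q k j p d M Λ g f O H i₀ ix e a R a₁ R₁ W P dP z v hp hb hsub hA hz hW
  have hzR := hsub hz
  have hzt := hb.sub hzR
  refine ⟨⟨fun h => ?_, fun h l i => ?_⟩, fun hH => ?_⟩
  · have hs : sx z ∈ ball (sx a₁) R₁ := by
      rw [mem_ball, dist_pi_lt_iff hA.r0] at *
      exact fun l => hz _
    have hT := hsub (BDEP.append_mem hA.r0 (mem_ball_self hA.r0) hs)
    set T : E (q + j) := Fin.append (fx a₁) (sx z) with hTd
    have hol : HolN (fun w => af f i₀ (e.symm w)) T := by
      filter_upwards [eventually_all.2 fun l =>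
        BDEP.hol_af hp.map hb.mem (hb.sub hT) (hb.pt _ hT).2.1 l] with w hw
      exact differentiableAt_pi.2 hw
    have hL : Lift M f e T fun w => af f i₀ (e.symm w) := by
      refine ⟨hb.mem, hb.sub hT, hol, ?_⟩
      filter_upwards [isOpen_ball.mem_nhds hT] with w hw
      exact ⟨_, inv_ne_zero (hb.pt w hw).2.1, funext fun l => by simp [af, div_eq_inv_mul]⟩
    have hv := hp.imm _ _ _ hL 0 (Fin.append 0 (sx v)) (by
      rw [zero_smul]
      funext l
      have hY := hasDerivAt_pi.1 (FDS.line (Fin.append 0 (sx v)) hol.self_of_nhds) l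
      have hl : Tendsto (fun t : ℂ => z + t • v) (𝓝 0) (𝓝 z) :=
        Continuous.tendsto' (by fun_prop) _ _ (by simp)
      refine FDS.root_deriv (P := fun t => P l (e.symm (z + t • v))) (fun t => (hA.mon l _).2)
        (fun i => ?_) hY ?_ (by simpa using hA.sep l _ hW)
      · have := FDS.line v (KA.at_tgt hb.mem hzt (hA.hol l i _ hW)).self_of_nhds
        rwa [h l i] at this
      · filter_upwards [hl.eventually (isOpen_ball.mem_nhds hz),
          hl.eventually ((KA.ev_iff' hzt).1 (hA.cot.1.mem_nhds hW))] with t h1 h2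
        rw [hTd, ← FDS.app_line]
        exact hA.root _ h1 h2 l)
    funext l
    simpa using congrFun hv (Fin.natAdd q l)
  · rw [FDS.dec h, map_sum]
    exact Finset.sum_eq_zero fun b _ => by
      rw [map_smul]
      exact smul_eq_zero_of_right _ (hA.bas z hz hW l i b)
  · funext l
    have h1 := hasDerivAt_pi.1 (FDS.line v (KA.at_tgt hb.mem hzt hH).self_of_nhds) (Fin.natAdd k l)
    have h2 : HasDerivAt (fun t : ℂ => (z + t • v) (Fin.natAdd q l)) (v (Fin.natAdd q l)) 0 := by
      simpa using ((hasDerivAt_id (0 : ℂ)).mul_const (v (Fin.natAdd q l))).const_add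
        (z (Fin.natAdd q l))
    have hl : Tendsto (fun t : ℂ => z + t • v) (𝓝 0) (𝓝 z) :=
      Continuous.tendsto' (by fun_prop) _ _ (by simp)
    refine h1.unique (h2.congr_of_eventuallyEq ?_)
    filter_upwards [hl.eventually (isOpen_ball.mem_nhds hzR)] with t ht
    exact (congrFun (hb.pt _ ht).2.2.2 l).symm

end Pool.Agent.Lib.RA
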