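import Pool.Agent.Lib.RYF.BlueF
import Pool.Agent.Lib.RY.K_At
import Pool.Agent.Lib.RA.T_PH

/-! Project ra2, step F, row HM: holomorphic maps and pluriharmonic functions. -/

open scoped Classical Topology ContDiff ComplexOrder Matrix
open Set MeasureTheory Complex Metric Filter

set_option linter.unusedVariables false

noncomputable section

namespace Pool.Agent.Lib.RA

open Pool.Agent.Lib.SV (E nsq)
open Pool.Agent.Lib.HS32

namespace FHM

variable {n : ℕ} {M : Mf n} {e : M.Ch} {x : M.X} {y : M.X → M.X}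

theorem hm_of (he : e ∈ M.C) (hs : ∀ᶠ x' in 𝓝 x, y x' ∈ e.source) (h : HolAt M (e ∘ y) x) :
    HM M x y := by
  have h0 := hs.self_of_nhds
  refine ⟨((e.continuousAt_symm (e.map_source h0)).comp (f := e ∘ y) (KA.holAt_cont h)).congr
    (hs.mono fun w hw => e.left_inv hw), fun e' he' hx' => ?_⟩
  exact KA.holAt_congr (KA.holAt_comp (K := e' ∘ e.symm) (H := e ∘ y) (KA.hol_tr he' he hx' h0) h)
    (hs.mono fun w hw => by simp only [Function.comp, e.left_inv hw])

theorem src (h : HM M x y) : ∀ᶠ x' in 𝓝 x, y x' ∈ (M.ch (y x)).source :=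
  h.1.eventually ((M.ch (y x)).open_source.eventually_mem (Mf.mem_ch _))

theorem tau (h : HM M x y) : HolAt M (M.ch (y x) ∘ y) x := h.2 _ (Mf.ch_mem _) (Mf.mem_ch _)

theorem fac {F : Type} (h : HM M x y) (g : M.X → F) :
    (fun x' => g (y x')) =ᶠ[𝓝 x] (g ∘ (M.ch (y x)).symm) ∘ (M.ch (y x) ∘ y) :=
  (src h).mono fun w hw => by simp only [Function.comp, (M.ch (y x)).left_inv hw]

theorem hol {F : Type} [NormedAddCommGroup F] [NormedSpace ℂ F] {g : M.X → F} (h : HM M x y)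
    (hg : HolAt M g (y x)) : HolAt M (fun x' => g (y x')) x :=
  KA.holAt_congr (KA.holAt_comp (KA.at_ch hg) (tau h)) (fac h g)

theorem ph_of {g : M.X → ℝ} (he : e ∈ M.C) (hx : x ∈ e.source)
    (h : ∀ᶠ w in 𝓝 (e x), ContDiffAt ℝ ∞ (g ∘ e.symm) w ∧ hr (g ∘ e.symm) w = 0) : PhAt M g x := by
  filter_upwards [(e.continuousAt hx).eventually h, e.open_source.eventually_mem hx] with w h1 h2
  have h3 := KA.smAt_of he h2 h1.1
  refine ⟨h3, fun e' he' hw => ?_⟩
  beta_reduce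
  rw [KA.hs_cmp h3 he he' h2 hw, KA.hs_eq, h1.2, Matrix.mul_zero, Matrix.zero_mul]
  rfl

theorem ph_ch {g : M.X → ℝ} (h : PhAt M g x) (he : e ∈ M.C) (hx : x ∈ e.source) :
    ∀ᶠ w in 𝓝 (e x), ContDiffAt ℝ ∞ (g ∘ e.symm) w ∧ hr (g ∘ e.symm) w = 0 :=
  (KA.at_ev (h.mono fun _ hw => hw.1) he hx).and (KA.at_ev (h.mono fun _ hw => hw.2) he hx)

theorem hr_re {f : E n → ℂ} {z : E n} (h : HolN f z) : hr (fun w => (f w).re) z = 0 := by
  obtain ⟨h1, -, h2, -⟩ := (stHOL n f z).2.2 h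
  have e : (fun w => (((f w).re : ℝ) : ℂ)) = fun w => (1 / 2 : ℂ) * (f w + star (f w)) := by
    funext w
    rw [re_eq_add_conj, star_def]
    ring
  rw [hr, e, hess_const_mul _ (h1.add (cd_star h1)), hess_add h1 (cd_star h1), hess_star h1, h2]
  simp

theorem ph_re {g : M.X → ℂ} (h : HolAt M g x) : PhAt M (fun y => (g y).re) x :=
  ph_of (Mf.ch_mem x) (Mf.mem_ch x) ((KA.at_ch h).eventually_nhds.mono fun w hw =>
    ⟨cd_re ((stHOL n _ w).2.2 hw).1, hr_re hw⟩)

theorem ph_congr {g g' : M.X → ℝ} (h : PhAt M g x) (q : g =ᶠ[𝓝 x] g') : PhAt M g' x := by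
  filter_upwards [h, q.eventuallyEq_nhds] with w h1 h2
  exact ⟨KA.smAt_congr h1.1 h2.symm, fun e he hw =>
    (KA.hs_congr h2.symm e he hw).trans (h1.2 e he hw)⟩

/-- A pluriharmonic germ is the real part of a holomorphic germ. -/
theorem ph_ex {g : M.X → ℝ} (h : PhAt M g x) :
    ∃ A : M.X → ℂ, HolAt M A x ∧ (fun y => (A y).re) =ᶠ[𝓝 x] g := by
  have hx := Mf.mem_ch x
  obtain ⟨r, hr0, hb⟩ := Metric.mem_nhds_iff.1 (ph_ch h (Mf.ch_mem x) hx)
  obtain ⟨A, h1, h2, -⟩ := st_PH n _ _ isOpen_ball (convex_ball _ r) (fun z hz => (hb hz).1)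
    fun z hz => (hb hz).2
  refine ⟨fun y => 2 * A (M.ch x y), KA.holAt_of (Mf.ch_mem x) hx (KA.holN_congr
    (KA.holN_of_on isOpen_ball (h1.const_mul 2) (mem_ball_self hr0)) ?_), ?_⟩
  · filter_upwards [(M.ch x).open_target.mem_nhds (Mf.ch_tgt x)] with w hw
    simp only [Function.comp, (M.ch x).right_inv hw]
  · filter_upwards [((M.ch x).continuousAt hx).eventually (ball_mem_nhds _ hr0),
      (M.ch x).open_source.eventually_mem hx] with w h3 h4
    have := h2 _ h3
    rw [Function.comp, (M.ch x).left_inv h4] at this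
    simp [this]

theorem ph_lin {g g' : M.X → ℝ} (h : PhAt M g x) (h' : PhAt M g' x) (a b : ℝ) :
    PhAt M (fun y => a * g y + b * g' y) x := by
  obtain ⟨A, h1, h2⟩ := ph_ex h
  obtain ⟨B, h3, h4⟩ := ph_ex h'
  refine ph_congr (ph_re (g := fun y => a * A y + b * B y) fun e he hx => ?_) ?_
  · filter_upwards [h1 e he hx, h3 e he hx] with w p q using (p.const_mul _).add (q.const_mul _)
  · filter_upwards [h2, h4] with w p q
    simp [← p, ← q]

theorem ph_an {g : M.X → ℝ} (h : PhAt M g x) : AnAt M g x := by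
  obtain ⟨A, h1, h2⟩ := ph_ex h
  exact KA.anAt_congr (KA.anAt_comp (reCLM.analyticAt _) (KA.anAt_of_hol h1)) h2.symm

theorem ph_fr {g : M.X → ℝ} (h : AnAt M g x) (hf : ∃ᶠ y in 𝓝 x, PhAt M g y) : PhAt M g x := by
  have hx := Mf.mem_ch x
  obtain ⟨r, hr0, hb⟩ := Metric.mem_nhds_iff.1 (KA.at_ch h).eventually_analyticAt
  obtain ⟨w, h1, h2, h3⟩ := (hf.and_eventually ((((M.ch x).continuousAt hx).eventually
    (ball_mem_nhds _ hr0)).and ((M.ch x).open_source.eventually_mem hx))).exists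
  have z0 : ∀ z : E n, hr (fun _ => 0) z = 0 := fun z => hess_const _
  refine ph_of (Mf.ch_mem x) hx (mem_of_superset (ball_mem_nhds _ hr0) fun z hz =>
    ⟨KA.cd_of_an (hb hz), ?_⟩)
  rw [← z0 z]
  exact KA.hr_ball (fun w hw => hb hw) (fun _ _ => analyticAt_const) h2
    ((ph_ch h1 (Mf.ch_mem x) h3).mono fun v hv => by rw [hv.2, z0]) hz

end FHM

open FHM in
theorem st_FHM : St_FHM := by
  intro n M
  refine ⟨⟨fun x y h => ?_, fun x y h => h.1, fun x y y' q h => ⟨h.1.congr q, fun e he hx => ?_⟩⟩,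
    fun x y h => ⟨fun F _ _ g hg => hol h hg, fun F _ _ g => ⟨fun hg => ?_, fun hg => ?_⟩,
      fun g hg => ?_, fun k ρ ξ hρ hξ => ?_⟩, fun x => ⟨continuousAt_id, fun e he hx => ?_⟩,
    fun x g => ⟨fun h => ⟨h.eventually_nhds, ph_an h, fun g' q => ph_congr h q, fun a => ?_,
      fun g' h' => ⟨?_, ?_⟩⟩, ph_fr⟩, fun x a => ?_, fun x g => ph_re, fun x u u' T h => ?_⟩
  · filter_upwards [(src h).eventually_nhds, KA.holAt_ev (tau h)] with w h1 h2
    exact hm_of (Mf.ch_mem _) h1 h2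
  · exact KA.holAt_congr (h.2 e he (by rwa [q.self_of_nhds])) (q.symm.fun_comp e)
  · exact KA.anAt_congr (KA.anAt_comp (KA.at_ch hg) (KA.anAt_of_hol (tau h))) (fac h g)
  · exact KA.smAt_congr (KA.smAt_comp (KA.at_ch hg) (KA.smAt_of_an (KA.anAt_of_hol (tau h))))
      (fac h g)
  · obtain ⟨A, h1, h2⟩ := ph_ex hg
    exact ph_congr (ph_re (hol h h1)) (h.1.eventually h2)
  · refine KA.anAt_congr (KA.anAt_comp (f := fun x' => (ξ x', M.ch (y x) (y x'))) (KA.at_ch hρ)
      fun e he hx => (hξ e he hx).prod (KA.anAt_of_hol (tau h) e he hx)) ?_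
    exact (src h).mono fun w hw => by simp only [Function.comp, (M.ch (y x)).left_inv hw]
  · refine KA.holAt_of he hx (KA.holN_congr (H := id)
      (Eventually.of_forall fun _ => differentiableAt_id) ?_)
    filter_upwards [e.open_target.mem_nhds (e.map_source hx)] with w hw using e.right_inv hw
  · simpa using ph_lin h h a 0
  · simpa using ph_lin h h' 1 1
  · simpa [sub_eq_add_neg] using ph_lin h h' 1 (-1)
  · exact ph_re (g := fun _ => (a : ℂ)) fun _ _ _ =>
      Eventually.of_forall fun _ => differentiableAt_const _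
  · filter_upwards [h] with w ⟨h1, h2, h3, h4⟩
    refine ⟨fun e he hw => (h1 e he hw).add (h2 e he hw), fun e he hw => ?_⟩
    have := hess_add (cd_ofReal (h1 e he hw)) (cd_ofReal (h2 e he hw))
    simp only [← ofReal_add] at this
    refine this.trans ((congrArg₂ (· + ·) (h3 e he hw) (h4 e he hw)).trans ?_)
    exact neg_add_cancel _

end Pool.Agent.Lib.RA
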