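import Pool.Agent.Lib.RYF.BlueF
import Pool.Agent.Lib.RY.Gen
import Pool.Agent.Lib.RY.B_DEP
import Pool.Agent.Lib.PN.Kit

/-! Project ra2: the inverse of the affine coordinates. -/

open scoped Classical Topology ContDiff
open Set Metric Filter

noncomputable section

namespace Pool.Agent.Lib.RA

open Pool.Agent.Lib.SV (E)
open Pool.Agent.Lib.HS32 Pool.Agent.Lib.PN

namespace FINV

variable {n : ℕ} {M : Mf n} {ι : Type} [Fintype ι] {f : M.X → ι → ℂ}

theorem ne_near (hf : PMap M f) {x : M.X} {i : ι} (h0 : f x i ≠ 0) : ∀ᶠ y in 𝓝 x, f y i ≠ 0 := by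
  have hx := Mf.mem_ch x
  obtain ⟨F, hF⟩ := hf.ex _ (Mf.ch_mem x) _ (Mf.ch_tgt x)
  have h1 : F (M.ch x x) i ≠ 0 := by
    obtain ⟨a, ha, h⟩ := hF.ev.self_of_nhds
    rw [h, (M.ch x).left_inv hx]
    exact mul_ne_zero ha h0
  refine (ev_ch hx).2 ?_
  filter_upwards [hF.ev, (holN_apply hF.hol i).self_of_nhds.continuousAt.eventually_ne h1]
    with w ⟨a, _, h⟩ b
  rw [h] at b
  exact right_ne_zero_of_mul b

theorem hol_af (hf : PMap M f) {x : M.X} {i : ι} (h0 : f x i ≠ 0) : HolAt M (af f i) x :=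
  fun e he hx => holN_pi fun l =>
    BDEP.hol_af hf he (e.map_source hx) (by rw [e.left_inv hx]; exact h0) l

omit [Fintype ι] in
theorem af_smul {X : Type} (f : X → ι → ℂ) (i : ι) (y : X) : af f i y = (f y i)⁻¹ • f y :=
  funext fun l => by rw [af, Pi.smul_apply, smul_eq_mul, div_eq_inv_mul]

/-- A holomorphic immersion has a holomorphic local left inverse. -/
theorem left_inv {A : E n → ι → ℂ} {z : E n} (hA : HolN A z)
    (hi : Function.Injective (fderiv ℂ A z)) :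
    ∃ Ψ : (ι → ℂ) → E n, AnalyticAt ℂ Ψ (A z) ∧ ∀ᶠ w in 𝓝 z, Ψ (A w) = w := by
  obtain ⟨L, hL⟩ := ContinuousLinearMap.HasLeftInverse.of_injective_of_finiteDimensional hi
  have ha : AnalyticAt ℂ (L ∘ A) z := (L.analyticAt _).comp (ANB.analyticAt hA)
  have hd : HasFDerivAt (L ∘ A)
      ((ContinuousLinearEquiv.refl ℂ (E n) : E n ≃L[ℂ] E n) : E n →L[ℂ] E n) z :=
    (L.hasFDerivAt.comp z hA.self_of_nhds.hasFDerivAt).congr_fderiv
      (ContinuousLinearMap.ext fun v => hL v)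
  have hc : ContDiffAt ℂ ω (L ∘ A) z := ha.contDiffAt
  exact ⟨hc.localInverse hd (by simp) ∘ L,
    (hc.to_localInverse hd (by simp)).analyticAt.comp (f := L) (x := A z) (L.analyticAt _),
    (hc.hasStrictFDerivAt' hd (by simp)).eventually_left_inverse⟩

end FINV

open FINV in
theorem st_FINV : St_FINV := by
  intro n p d M _ Λ g f i₀ hP
  have hf := hP.map
  set κ : (Fin (p + n + 1) → ℂ) → M.X := fun Y =>
    if h : ∃ y, f y i₀ ≠ 0 ∧ Y = af f i₀ y then h.choose else Classical.arbitrary _ with hκ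
  have k1 : ∀ y, f y i₀ ≠ 0 → κ (af f i₀ y) = y := fun y hy => by
    have h : ∃ y', f y' i₀ ≠ 0 ∧ af f i₀ y = af f i₀ y' := ⟨y, hy, rfl⟩
    simp only [hκ, dif_pos h]
    have h0 := h.choose_spec
    generalize h.choose = y' at h0
    obtain ⟨h1, h2⟩ := h0
    refine hP.inj _ _ (f y' i₀ * (f y i₀)⁻¹) ?_
    rw [mul_smul, ← af_smul, h2, af_smul, smul_smul, mul_inv_cancel₀ h1, one_smul]
  refine ⟨κ, k1, fun Y => ⟨?_, fun ⟨h1, h2⟩ => ?_⟩, fun x Y hY hev => ?_⟩
  · rintro ⟨y, hy, rfl⟩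
    exact ⟨div_self hy, fun l => by rw [af_smul, eval_smul_hom (hP.hom l), hP.zero, mul_zero]⟩
  · obtain ⟨y, a, rfl⟩ := hP.onto Y (Function.ne_iff.2 ⟨i₀, by rw [h1]; exact one_ne_zero⟩) h2
    have h3 : a * f y i₀ = 1 := h1
    exact ⟨y, right_ne_zero_of_mul_eq_one h3, by rw [af_smul, ← eq_inv_of_mul_eq_one_left h3]⟩
  have k2 : ∀ᶠ x' in 𝓝 x, f (κ (Y x')) i₀ ≠ 0 ∧ Y x' = af f i₀ (κ (Y x')) :=
    hev.mono fun x' ⟨y, h1, h2⟩ => by rw [h2, k1 y h1]; exact ⟨h1, rfl⟩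
  have k3 : ContinuousAt (fun x' => κ (Y x')) x := by
    refine (tendsto_iff_ultrafilter _ _ _).2 fun U hU => ?_
    obtain ⟨a, -, ha⟩ := isCompact_univ.ultrafilter_le_nhds (U.map fun x' => κ (Y x')) (by simp)
    have ha' : Tendsto (fun x' => κ (Y x')) U (𝓝 a) := ha
    obtain ⟨i, hi⟩ := Function.ne_iff.1 (hf.ne a)
    have hYt : Tendsto Y U (𝓝 (Y x)) := hY.cont.tendsto.mono_left hU
    have h1 : Y x i • af f i a = Y x := by
      refine tendsto_nhds_unique_of_eventuallyEq (((continuous_apply i).tendsto _ |>.comp hYt).smul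
        ((hol_af hf hi).cont.tendsto.comp ha')) hYt ?_
      filter_upwards [k2.filter_mono hU, ha'.eventually (ne_near hf hi)] with x' ⟨b, c⟩ b'
      simp only [Function.comp]
      generalize κ (Y x') = y at b c b'
      rw [c, af_smul, af_smul, smul_smul, Pi.smul_apply, smul_eq_mul, mul_assoc,
        mul_inv_cancel₀ b', mul_one]
    have h2 : Y x i₀ = 1 := by rw [k2.self_of_nhds.2]; exact div_self k2.self_of_nhds.1
    rw [af_smul, smul_smul] at h1
    have h3 : Y x i * (f a i)⁻¹ * f a i₀ = 1 := (congrFun h1 i₀).trans h2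
    have h4 : κ (Y x) = a := by
      rw [← h1, eq_inv_of_mul_eq_one_left h3, ← af_smul, k1 a (right_ne_zero_of_mul_eq_one h3)]
    beta_reduce
    rw [h4]
    exact ha'
  refine ⟨k3, fun e he hx => ?_⟩
  obtain ⟨b, c⟩ := k2.self_of_nhds
  have hA := hol_af hf b e he hx
  have hL : Lift M f e (e (κ (Y x))) (af f i₀ ∘ e.symm) := ⟨he, e.map_source hx, hA,
    ((ev_ch hx).1 (ne_near hf b)).mono fun w hw => ⟨_, inv_ne_zero hw, af_smul f i₀ _⟩⟩
  obtain ⟨Ψ, h1, h2⟩ := left_inv hA ((injective_iff_map_eq_zero _).2 fun v hv =>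
    hP.imm _ _ _ hL 0 v (by rw [hv, zero_smul]))
  rw [Function.comp, e.left_inv hx, ← c] at h1
  refine (hY.comp (h1.eventually_analyticAt.mono fun _ h => h.differentiableAt)).congr ?_
  filter_upwards [k2, k3.eventually (ev_ch' hx h2), k3.eventually (e.open_source.mem_nhds hx)]
    with x' a1 a2 a3
  rw [Function.comp, e.left_inv a3, ← a1.2] at a2
  exact a2.symm

end Pool.Agent.Lib.RA
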