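import Pool.Agent.Lib.RYF.BlueF
import Pool.Agent.Lib.RY.K_At

/-! Project ra2, row F_KIL: differentials that kill the kernel. -/

open scoped Classical Topology ContDiff ComplexOrder Matrix
open Set MeasureTheory Complex Metric Filter

set_option linter.unusedVariables false

noncomputable section

namespace Pool.Agent.Lib.RA

open Pool.Agent.Lib.SV (E nsq)
open Pool.Agent.Lib.HS32

namespace FK14

theorem ker_conj {n : ℕ} {A J : Mat n} (h : J.det ≠ 0) {v : E n} (q : (Jᴴ * A * J) *ᵥ v = 0) :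
    A *ᵥ (J *ᵥ v) = 0 := by
  have hu : IsUnit (Jᴴ).det := by
    rw [Matrix.det_conjTranspose]; exact (star_ne_zero.2 h).isUnit
  have a : (Jᴴ)⁻¹ *ᵥ ((Jᴴ * A * J) *ᵥ v) = 0 := by rw [q, Matrix.mulVec_zero]
  rwa [Matrix.mulVec_mulVec, Matrix.mul_assoc, ← Matrix.mul_assoc (Jᴴ)⁻¹,
    Matrix.nonsing_inv_mul _ hu, Matrix.one_mul, ← Matrix.mulVec_mulVec] at a

theorem fd_sum {n : ℕ} (L : E n →L[ℂ] ℂ) (v : E n) : L v = ∑ j, L (Pi.single j 1) * v j := by
  conv_lhs => rw [← Finset.univ_sum_single v, map_sum]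
  refine Finset.sum_congr rfl fun j _ => ?_
  rw [mul_comm, ← smul_eq_mul, ← map_smul]
  congr 1
  ext i
  by_cases h : i = j
  · subst h; simp
  · simp [h]

variable {n : ℕ} {M : Mf n} {φ : M.Fam ℝ} {x : M.X}

theorem one {F : Type} [NormedAddCommGroup F] [NormedSpace ℂ F] {g : M.X → F} {e : M.Ch}
    (hφ : WtP M φ) (hg : HolAt M g x) (he : e ∈ M.C) (hx : x ∈ e.source)
    (h : ∀ v, M.hw φ e (e x) *ᵥ v = 0 → fderiv ℂ (g ∘ e.symm) (e x) v = 0) : Kil M φ g x := by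
  intro e' he' hx' v hv
  rw [KA.hw_cmp hφ he he' hx hx'] at hv
  have a := h _ (ker_conj (KA.det_J he he' hx hx') hv)
  have t := KA.hol_tr he he' hx hx'
  rw [(KA.comp_ev g hx hx').fderiv_eq,
    fderiv_comp _ (by rw [KA.tr_pt hx']; exact (hg e he hx).self_of_nhds) t.self_of_nhds,
    KA.tr_pt hx', ContinuousLinearMap.comp_apply, (mCHN n _ _ t).2.2.2.2.2.1 v]
  exact a

theorem two {r : ℕ} {τ : M.X → E r} (hτ : HolAt M τ x) (h : ∀ i, Kil M φ (fun y => τ y i) x) :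
    Kil M φ τ x := by
  intro e he hx v hv
  ext i
  have a := h i e he hx v hv
  have d := (hτ e he hx).self_of_nhds
  have b : fderiv ℂ ((fun y => τ y i) ∘ e.symm) (e x) =
      (ContinuousLinearMap.proj i : E r →L[ℂ] ℂ).comp (fderiv ℂ (τ ∘ e.symm) (e x)) :=
    ((ContinuousLinearMap.proj i : E r →L[ℂ] ℂ).hasFDerivAt.comp (e x) d.hasFDerivAt).fderiv
  rw [b] at a
  exact a

theorem three {g : M.X → ℂ} (hg : HolAt M g x) (h0 : g x ≠ 0)
    (h : At M x fun e z => ∀ v, M.hw φ e z *ᵥ v = 0 →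
      dv1 (fun w => Real.log (normSq (g (e.symm w))) - (0 : ℕ) * φ e w) z ⬝ᵥ v = 0) :
    Kil M φ g x := by
  intro e he hx v hv
  have a := h e he hx v hv
  have d := hg e he hx
  have h1 : (g ∘ e.symm) (e x) ≠ 0 := by simpa only [Function.comp, e.left_inv hx] using h0
  have b := ((mHOL n _ _).2.2 d).2.2.2 h1
  have c := (mHOL n _ _).2.1 d.self_of_nhds
  have q : ∀ j, dv1 (fun w => Real.log (normSq (g (e.symm w))) - (0 : ℕ) * φ e w) (e x) j =
      fderiv ℂ (g ∘ e.symm) (e x) (Pi.single j 1) / (g ∘ e.symm) (e x) := fun j => by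
    rw [← c j, ← b.2.2 j]
    simp [dv1]
  rw [fd_sum]
  simp only [dotProduct, q, div_mul_eq_mul_div, ← Finset.sum_div] at a
  exact (div_eq_zero_iff.1 a).resolve_right h1

end FK14

theorem st_FKIL : St_FKIL := fun n M φ x hφ =>
  ⟨fun g e hg he hx h => FK14.one hφ hg he hx h, fun r τ hτ h => FK14.two hτ h,
    fun g hg h0 h => FK14.three hg h0 h⟩

end Pool.Agent.Lib.RA
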