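import Pool.Agent.Lib.RYF.BlueF
import Pool.Agent.Lib.RY.B_MER

/-! Project ra2, step F: calculus of logarithmic growth. -/

open scoped Classical Topology ContDiff ComplexOrder Matrix
open Set MeasureTheory Complex Metric Filter

set_option linter.unusedVariables false

noncomputable section

namespace Pool.Agent.Lib.RA

open Pool.Agent.Lib.SV (E nsq)
open Pool.Agent.Lib.HS32

namespace FLG

theorem one_le {t : ℂ} (h : ‖t‖ ≤ 1) : 1 ≤ 1 - Real.log ‖t‖ := by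
  linarith [Real.log_nonpos (norm_nonneg t) h]

theorem up {s t : ℂ} {a C : ℝ} (hs : ‖s‖ ≤ 1) (ht : ‖t‖ ≤ 1) (h0 : s * t ≠ 0)
    (h : a ≤ C * (1 - Real.log ‖s‖)) : a ≤ |C| * (1 - Real.log ‖s * t‖) := by
  have h1 : ‖s * t‖ ≤ ‖s‖ := by
    rw [norm_mul]
    exact mul_le_of_le_one_right (norm_nonneg s) ht
  have h2 := Real.log_le_log (norm_pos_iff.2 h0) h1
  have h3 := one_le hs
  refine h.trans ((mul_le_mul_of_nonneg_right (le_abs_self C) (by linarith)).trans ?_)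
  exact mul_le_mul_of_nonneg_left (by linarith) (abs_nonneg C)

theorem sum_le {X : Type} {S : Set X} {N : ℕ} (hS : S.Finite) (hN : S.ncard ≤ N) {g : X → ℝ}
    {B : ℝ} (hB : 0 ≤ B) (h : ∀ y ∈ S, |g y| ≤ B) : |∑ᶠ y ∈ S, g y| ≤ N * B := by
  rw [finsum_mem_eq_finite_toFinset_sum g hS]
  refine (Finset.abs_sum_le_sum_abs _ _).trans ((Finset.sum_le_card_nsmul _ _ B
    fun y hy => h y (hS.mem_toFinset.1 hy)).trans ?_)
  rw [nsmul_eq_mul, ← Set.ncard_eq_toFinset_card S hS]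
  exact mul_le_mul_of_nonneg_right (by exact_mod_cast hN) hB

end FLG

theorem st_FLG : St_FLG := by
  intro n M W S
  refine ⟨fun g h x => ?_, fun g h => ⟨fun W' hW x => ?_, fun S' hS x => ?_, fun N hN x => ?_,
    fun g' g'' C h' hb x => ?_⟩, fun g W' h hW x => ?_⟩
  · obtain ⟨O, δ, C, h1, h2, h3⟩ := h x
    exact ⟨O, δ, C, h1, h2, fun y hy h0 => ⟨(h3 y hy h0).1, fun _ _ => (h3 y hy h0).2⟩⟩
  · obtain ⟨O, δ, C, h1, h2, h3⟩ := h x
    obtain ⟨O', δ', h4, h5, h6⟩ := hW.2 x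
    exact ⟨O ∩ O', _, |C|, ⟨h1, h4⟩, M86.dv_mul h2 h5, fun y hy h0 =>
      ⟨h6 y hy.2 (right_ne_zero_of_mul h0), fun z hz => FLG.up (h2.le y hy.1) (h5.le y hy.2) h0
        ((h3 y hy.1 (left_ne_zero_of_mul h0)).2 z hz)⟩⟩
  · obtain ⟨O, δ, C, h1, h2, h3⟩ := h x
    exact ⟨O, δ, C, h1, h2, fun y hy h0 =>
      ⟨(h3 y hy h0).1, fun z hz => (h3 y hy h0).2 z (hS y hz)⟩⟩
  · obtain ⟨O, δ, C, h1, h2, h3⟩ := h x
    refine ⟨O, δ, N * |C|, h1, h2, fun y hy h0 => ⟨(h3 y hy h0).1, ?_⟩⟩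
    have h4 := FLG.one_le (h2.le y hy)
    obtain ⟨h5, h6⟩ := hN y (h3 y hy h0).1
    rw [mul_assoc]
    exact FLG.sum_le h5 h6 (mul_nonneg (abs_nonneg C) (by linarith)) fun z hz =>
      ((h3 y hy h0).2 z hz).trans (mul_le_mul_of_nonneg_right (le_abs_self C) (by linarith))
  · obtain ⟨O, δ, C₁, h1, h2, h3⟩ := h x
    obtain ⟨O', δ', C₂, h4, h5, h6⟩ := h' x
    refine ⟨O ∩ O', _, |C| * (1 + |C₁| + |C₂|), ⟨h1, h4⟩, M86.dv_mul h2 h5, fun y hy h0 => ?_⟩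
    obtain ⟨a1, a2⟩ := h3 y hy.1 (left_ne_zero_of_mul h0)
    refine ⟨a1, fun z hz => ?_⟩
    have a3 := FLG.up (h2.le y hy.1) (h5.le y hy.2) h0 (a2 z hz)
    have a4 := FLG.up (h5.le y hy.2) (h2.le y hy.1) (mul_comm (δ y) (δ' y) ▸ h0)
      ((h6 y hy.2 (right_ne_zero_of_mul h0)).2 z hz)
    rw [mul_comm (δ' y) (δ y)] at a4
    have a5 := FLG.one_le ((M86.dv_mul h2 h5).le y hy)
    refine (hb y a1 z hz).trans
      ((mul_le_mul_of_nonneg_right (le_abs_self C) (by positivity)).trans ?_)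
    rw [mul_assoc]
    exact mul_le_mul_of_nonneg_left (by linarith) (abs_nonneg C)
  · obtain ⟨O, δ, C, h1, h2, h3⟩ := h x
    obtain ⟨O', δ', h4, h5, h6⟩ := hW.2 x
    exact ⟨O ∩ O', _, |C|, ⟨h1, h4⟩, M86.dv_mul h2 h5, fun y hy h0 =>
      ⟨h6 y hy.2 (right_ne_zero_of_mul h0), FLG.up (h2.le y hy.1) (h5.le y hy.2) h0
        (h3 y hy.1 (left_ne_zero_of_mul h0)).2⟩⟩

end Pool.Agent.Lib.RA
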