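import Pool.Agent.Lib.RYF.BlueF
import Pool.Agent.Lib.RY.B_MER

/-! Project ra2, step F: the norm of the section along the correspondence. -/

open scoped Classical Topology ContDiff ComplexOrder Matrix
open Set MeasureTheory Complex Metric Filter

set_option linter.unusedVariables false

noncomputable section

namespace Pool.Agent.Lib.RA

open Pool.Agent.Lib.SV (E nsq)
open Pool.Agent.Lib.HS32 Pool.Agent.Lib.PN

namespace BNRM

variable {n : ℕ} {M : Mf n} {ι : Type} [Fintype ι] {f : M.X → ι → ℂ} {i₀ : ι} {m : ℕ}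
  {θ : M.X → ℂ} {x : M.X}

theorem hm_comp {F : Type} [NormedAddCommGroup F] [NormedSpace ℂ F] {y : M.X → M.X} {g : M.X → F}
    (h : HM M x y) (hg : HolAt M g (y x)) : HolAt M (fun x' => g (y x')) x := by
  have hx := Mf.mem_ch (y x)
  refine ((h.2 _ (Mf.ch_mem _) hx).comp (φ := g ∘ (M.ch (y x)).symm) hg.ch).congr ?_
  filter_upwards [h.1.eventually ((M.ch (y x)).open_source.eventually_mem hx)] with w hw
  simp only [Function.comp, (M.ch (y x)).left_inv hw]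

theorem one_le_af (h : f x i₀ ≠ 0) : 1 ≤ nsq (af f i₀ x) := by
  have := Finset.single_le_sum (f := fun l => normSq (af f i₀ x l)) (fun l _ => normSq_nonneg _)
    (Finset.mem_univ i₀)
  rwa [show af f i₀ x i₀ = 1 from div_self h, normSq_one] at this

theorem af_eq (f : M.X → ι → ℂ) (i₀ : ι) (x : M.X) :
    nsq (af f i₀ x) = nsq (f x) / normSq (f x i₀) := by
  simp only [nsq, af, map_div₀, Finset.sum_div]

theorem norm_eq (h : f x i₀ ≠ 0) :
    normSq (θ x / f x i₀ ^ m) = no f m θ x * nsq (af f i₀ x) ^ m := by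
  have a := one_le_af h
  rw [af_eq] at a ⊢
  have b : nsq (f x) ≠ 0 := fun e => by rw [e, zero_div] at a; linarith
  rw [no, map_div₀, map_pow, div_pow]
  field_simp

theorem log_eq (h : f x i₀ ≠ 0) (h0 : θ x / f x i₀ ^ m ≠ 0) : Real.log (no f m θ x) =
    Real.log (normSq (θ x / f x i₀ ^ m)) - m * Real.log (nsq (af f i₀ x)) := by
  have a := normSq_pos.2 h0
  rw [norm_eq h] at a ⊢
  rw [Real.log_mul (left_ne_zero_of_mul a.ne') (right_ne_zero_of_mul a.ne'), Real.log_pow]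
  ring

theorem norm_le {C : ℝ} (h : f x i₀ ≠ 0) (hC : no f m θ x ≤ C) :
    ‖θ x / f x i₀ ^ m‖ ≤ (1 + |C|) * nsq (af f i₀ x) ^ m := by
  have a := one_le_pow₀ (n := m) (one_le_af h)
  have b := norm_eq (θ := θ) (m := m) h
  rw [normSq_eq_norm_sq] at b
  have c := mul_le_mul_of_nonneg_right (hC.trans (le_abs_self C)) (zero_le_one.trans a)
  nlinarith [sq_nonneg (‖θ x / f x i₀ ^ m‖ - 1), sq_nonneg ‖θ x / f x i₀ ^ m‖]

theorem nsq_le (v : ι → ℂ) : nsq v ≤ Fintype.card ι * (1 + ‖v‖) ^ 2 := by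
  refine (Finset.sum_le_card_nsmul _ _ ((1 + ‖v‖) ^ 2) fun l _ => ?_).trans (by simp)
  rw [normSq_eq_norm_sq]
  exact pow_le_pow_left₀ (norm_nonneg _) ((norm_le_pi_norm v l).trans (by linarith)) 2

theorem exp_le {D s : ℝ} (h0 : 0 < s) (h1 : s ≤ 1) :
    Real.exp (D * (1 - Real.log s)) * s ^ ⌈D⌉₊ ≤ Real.exp D := by
  have a : s ^ ⌈D⌉₊ = Real.exp (⌈D⌉₊ * Real.log s) := by
    rw [Real.exp_nat_mul, Real.exp_log h0]
  rw [a, ← Real.exp_add, Real.exp_le_exp]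
  nlinarith [Nat.le_ceil D, Real.log_nonpos h0.le h1]

variable {W : Set M.X} {S : M.X → Set M.X} {C : ℝ}

theorem bnd (hC : ∀ x, no f m θ x ≤ C) (h0 : ∀ x ∈ W, ∀ y ∈ S x, f y i₀ ≠ 0)
    (hL : LogS M W S fun _ y => Real.log (nsq (af f i₀ y))) (x : M.X) :
    ∃ (O : Set M.X) (δ : M.X → ℂ) (D : ℝ), x ∈ O ∧ Dv M O δ ∧ 0 ≤ D ∧ ∀ x' ∈ O, δ x' ≠ 0 →
      x' ∈ W ∧ ∀ y ∈ S x', ‖θ y / f y i₀ ^ m‖ ≤ Real.exp (D * (1 - Real.log ‖δ x'‖)) ∧
        |Real.log (nsq (af f i₀ y))| ≤ D * (1 - Real.log ‖δ x'‖) := by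
  obtain ⟨O, δ, D, h1, h2, h3⟩ := hL x
  have c0 : 0 ≤ Real.log (1 + |C|) := Real.log_nonneg (by linarith [abs_nonneg C])
  have d0 := abs_nonneg D
  have m0 : (0 : ℝ) ≤ m * |D| := by positivity
  refine ⟨O, δ, Real.log (1 + |C|) + m * |D| + |D|, h1, h2, by positivity, fun x' hx a =>
    ⟨(h3 x' hx a).1, fun y hy => ?_⟩⟩
  have l := M86.log_le h2 hx
  have b : |Real.log (nsq (af f i₀ y))| ≤ |D| * (1 - Real.log ‖δ x'‖) :=
    ((h3 x' hx a).2 y hy).trans (mul_le_mul_of_nonneg_right (le_abs_self D) (by linarith))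
  have y0 := h0 x' (h3 x' hx a).1 y hy
  have p : 0 < nsq (af f i₀ y) := one_pos.trans_le (one_le_af y0)
  refine ⟨(norm_le y0 (hC y)).trans ?_, b.trans (by nlinarith)⟩
  rw [← Real.exp_log (show 0 < (1 + |C|) * nsq (af f i₀ y) ^ m by positivity), Real.exp_le_exp,
    Real.log_mul (by positivity) (by positivity), Real.log_pow]
  have := mul_le_mul_of_nonneg_left ((le_abs_self _).trans b) (Nat.cast_nonneg (α := ℝ) m)
  nlinarith

end BNRM

open BNRM M86 in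
theorem st_FNRM : St_FNRM := by
  intro n M _ ι _ f i₀ m θ W S N C hP hθ hC ⟨x₀, a0, a1⟩ hS h0 hL hf
  have c0 := pm_cot hP a1
  have tA : Tame M {x | f x i₀ ≠ 0} (af f i₀) := tame_pi c0 fun l => mer_tame (pm_mer hP a1 l) c0
  have k1 : (1 : ℝ) ≤ Fintype.card ι := Nat.one_le_cast.2 (Fintype.card_pos_iff.2 ⟨i₀⟩)
  have lA : LogT M {x | f x i₀ ≠ 0} fun x => Real.log (nsq (af f i₀ x)) :=
    logT_of_tame tA (C := Real.log (Fintype.card ι) + 2) fun x hx => by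
      have a := one_le_af hx
      have b := Real.log_le_log (one_pos.trans_le a) (nsq_le (af f i₀ x))
      rw [Real.log_mul (by positivity) (by positivity), Real.log_pow] at b
      rw [abs_of_nonneg (Real.log_nonneg a)]
      have := Real.log_nonneg k1
      have := Real.log_nonneg (show 1 ≤ 1 + ‖af f i₀ x‖ by simp)
      push_cast at b
      nlinarith
  have hT : ∀ x ∈ {x | f x i₀ ≠ 0}, HolAt M (fun y => θ y / f y i₀ ^ m) x := fun x hx => hθ x i₀ hx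
  have mT : Mer M fun y => θ y / f y i₀ ^ m := mer_of_tame hT
    (tame_of_le tA (C := (1 + |C|) * Fintype.card ι ^ m) (k := 2 * m) fun x hx => by
      rw [pow_mul, mul_assoc, ← mul_pow]
      exact (norm_le hx (hC x)).trans (mul_le_mul_of_nonneg_left
        (pow_le_pow_left₀ (zero_le_one.trans (one_le_af hx)) (nsq_le _) m) (by positivity)))
  have t0 : θ x₀ / f x₀ i₀ ^ m ≠ 0 := div_ne_zero a0 (pow_ne_zero _ a1)
  have c1 := mer_cot_ne mT c0 hT a1 t0
  have lT := mer_logT mT c0 (freq_of_ne (hT x₀ a1) t0)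
  have hN : ∀ x ∈ W, HolAt M (fun x => ∏ᶠ y ∈ S x, θ y / f y i₀ ^ m) x ∧
      ∃ᶠ x' in 𝓝 x, ∏ᶠ y ∈ S x', θ y / f y i₀ ^ m ≠ 0 := fun x hx =>
    (hS.sh x hx).prod_ind (g := fun _ y => θ y / f y i₀ ^ m)
      (H := fun g => HolAt M g x ∧ ∃ᶠ x' in 𝓝 x, g x' ≠ 0)
      (fun g g' e h => ⟨h.1.congr e.symm, (h.2.and_eventually e).mono fun y hy => hy.2 ▸ hy.1⟩)
      ⟨holAt_const 1, (Eventually.of_forall fun _ => one_ne_zero).frequently⟩
      (fun g g' h h' => ⟨h.1.mul h'.1, h.1.nz_mul h'.1 h.2 h'.2⟩) fun s hs =>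
        ⟨hm_comp hs.1 (hT _ (h0 x hx _ hs.mem)),
          ((hf x hx s hs).and_eventually (hs.2.and (hS.cot.1.eventually_mem hx))).mono fun y hy =>
            div_ne_zero hy.1 (pow_ne_zero _ (h0 y hy.2.2 _ hy.2.1))⟩
  have mN : Mer M fun x => ∏ᶠ y ∈ S x, θ y / f y i₀ ^ m :=
    mer_of_tame (fun x hx => (hN x hx).1) fun x => by
      obtain ⟨O, δ, D, h1, h2, d0, h3⟩ := bnd (θ := θ) hC h0 hL x
      refine ⟨O, δ, Real.exp (N * D), ⌈N * D⌉₊, h1, h2, fun y hy a => ⟨(h3 y hy a).1, ?_⟩⟩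
      refine (mul_le_mul_of_nonneg_right ?_ (by positivity)).trans
        (exp_le (norm_pos_iff.2 a) (h2.le y hy))
      rw [mul_assoc, Real.exp_nat_mul]
      exact norm_finprod_le (hS.sh y (h3 y hy a).1).finite (hS.card y (h3 y hy a).1)
        (Real.one_le_exp (mul_nonneg d0 (by linarith [log_le h2 hy])))
        fun z hz => ((h3 y hy a).2 z hz).1
  obtain ⟨x₁, w1⟩ := (cot_dense hS.cot).nonempty
  obtain ⟨x₂, n2, w2⟩ := ((hN x₁ w1).2.and_eventually (hS.cot.1.eventually_mem w1)).exists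
  have c2 := mer_cot_ne mN hS.cot (fun x hx => (hN x hx).1) w2 n2
  have lN := logT_inter (mer_logT mN hS.cot (freq_of_ne (hN x₂ w2).1 n2)) c1
  have c3 := cot_inter c2 c1
  have nz : ∀ x ∈ W, ∏ᶠ y ∈ S x, θ y / f y i₀ ^ m ≠ 0 → ∀ y ∈ S x, θ y / f y i₀ ^ m ≠ 0 :=
    fun x hx h => (finprod_ne_zero_iff (hS.sh x hx).finite).1 h
  refine ⟨_, fun x hx => hx.1.1, c3, fun x hx => ⟨(div_ne_zero_iff.1 hx.2.2).1, hx.2.1,
    fun y hy => (div_ne_zero_iff.1 (nz x hx.1.1 hx.1.2 y hy)).1⟩, fun x => ?_, ?_,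
    logT_mono (logT_inter lA c3) inter_subset_right⟩
  · obtain ⟨O, δ, D, h1, h2, d0, h3⟩ := bnd (θ := θ) hC h0 hL x
    obtain ⟨O', δ', D', h4, h5, h6⟩ := lN x
    refine ⟨_, _, 2 * D + 2 * N * D + |D'| + m * D, mem_inter h1 h4, dv_mul h2 h5,
      fun x' hx a => ?_⟩
    have a1 := left_ne_zero_of_mul a
    have a2 := right_ne_zero_of_mul a
    obtain ⟨w, h7⟩ := h6 x' hx.2 a2
    refine ⟨w, fun y hy => ?_⟩
    obtain ⟨b1, b2⟩ := (h3 x' hx.1 a1).2 y hy
    have l1 := log_le h2 hx.1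
    have l2 := log_le h5 hx.2
    have y0 := nz x' w.1.1 w.1.2 y hy
    have b3 := norm_finprod_le_mul (hS.sh x' w.1.1).finite (hS.card x' w.1.1)
      (Real.one_le_exp (mul_nonneg d0 (show 0 ≤ 1 - Real.log ‖δ x'‖ by linarith)))
      (fun z hz => ((h3 x' hx.1 a1).2 z hz).1) hy
    have b4 := Real.log_le_log (norm_pos_iff.2 w.1.2) b3
    have b5 := Real.log_le_log (norm_pos_iff.2 y0) b1
    rw [Real.log_mul (norm_ne_zero_iff.2 y0) (by positivity), Real.log_pow, Real.log_exp] at b4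
    rw [Real.log_exp] at b5
    beta_reduce at h7 ⊢
    rw [normSq_eq_norm_sq, Real.log_pow] at h7
    rw [log_eq (h0 x' w.1.1 y hy) y0, normSq_eq_norm_sq, Real.log_pow, norm_mul,
      Real.log_mul (norm_ne_zero_iff.2 a1) (norm_ne_zero_iff.2 a2)]
    have h8 := h7.trans (mul_le_mul_of_nonneg_right (le_abs_self D') (by linarith))
    have e1 : D * (1 - Real.log ‖δ x'‖) ≤ D * (1 - (Real.log ‖δ x'‖ + Real.log ‖δ' x'‖)) :=
      mul_le_mul_of_nonneg_left (by linarith) d0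
    have e2 : |D'| * (1 - Real.log ‖δ' x'‖) ≤
        |D'| * (1 - (Real.log ‖δ x'‖ + Real.log ‖δ' x'‖)) :=
      mul_le_mul_of_nonneg_left (by linarith) (abs_nonneg _)
    have e0 : 0 ≤ D * (1 - (Real.log ‖δ x'‖ + Real.log ‖δ' x'‖)) := mul_nonneg d0 (by linarith)
    have e3 : 0 ≤ |D'| * (1 - (Real.log ‖δ x'‖ + Real.log ‖δ' x'‖)) :=
      mul_nonneg (abs_nonneg _) (by linarith)
    have n0 := Nat.cast_nonneg (α := ℝ) N
    have m0 := Nat.cast_nonneg (α := ℝ) m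
    have e4 := mul_le_mul_of_nonneg_left e1 n0
    have e5 := mul_nonneg n0 e0
    have e6 := mul_le_mul_of_nonneg_left ((abs_le.1 (b2.trans e1)).1) m0
    have e7 := mul_le_mul_of_nonneg_left ((abs_le.1 (b2.trans e1)).2) m0
    have e8 := (abs_le.1 h8).1
    push_cast at e8 ⊢
    rw [abs_le]
    constructor <;> linarith
  · refine logT_congr (logT_mono (logT_inter (logT_add lT (logT_smul lA (-m))) c3)
      inter_subset_right) fun x hx => ?_
    rw [log_eq hx.2.1 hx.2.2]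
    ring

end Pool.Agent.Lib.RA
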