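import Pool.Agent.Lib.RYF.BlueF
import Pool.Agent.Lib.RY.K_At

/-! Project ra2, step F: calculus of meromorphic sections. -/

open scoped Classical Topology ContDiff ComplexOrder Matrix
open Set MeasureTheory Complex Metric Filter

set_option linter.unusedVariables false

noncomputable section

namespace Pool.Agent.Lib.RA

open Pool.Agent.Lib.SV (E nsq)
open Pool.Agent.Lib.HS32

namespace FSEC

open KA

variable {n m : ℕ} {M : Mf n} {L : M.Co} {W : Set M.X} {s : M.Fam ℂ} {e : M.Ch} {x : M.X} {z : E n}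

theorem nz_mul {a b : E n → ℂ} (ha : HolN a z) (hb : HolN b z) (h : ∃ᶠ w in 𝓝 z, a w ≠ 0)
    (h' : ∃ᶠ w in 𝓝 z, b w ≠ 0) : ∃ᶠ w in 𝓝 z, a w * b w ≠ 0 := by
  intro hc
  refine h' ((SV.H85.eventually_zero_of_frequently hb ?_).mono fun w p q => q p)
  refine (h.and_eventually (ha.and hc.eventually_nhds)).mono fun w hw => ?_
  filter_upwards [hw.2.1.continuousAt.eventually_ne hw.1, hw.2.2] with v p q
  exact (mul_eq_zero.1 (not_not.1 q)).resolve_left p

/-- A meromorphic function in a chart. -/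
theorem mer_ch {g : M.X → ℂ} (hg : Mer M g) (he : e ∈ M.C) (hz : z ∈ e.target) :
    ∃ a b : E n → ℂ, HolN a z ∧ HolN b z ∧ (∃ᶠ w in 𝓝 z, b w ≠ 0) ∧
      ∀ᶠ w in 𝓝 z, b w ≠ 0 → g (e.symm w) = a w / b w := by
  obtain ⟨O, δ, a, hO, hδ, ha, hq⟩ := hg (e.symm z)
  refine ⟨a ∘ e.symm, δ ∘ e.symm, at_tgt he hz (ha _ hO), at_tgt he hz (hδ.hol _ hO), ?_, ?_⟩
  · exact fun hc => hδ.ne _ hO ((ev_iff' (p := fun y => ¬δ y ≠ 0) hz).2 hc)
  · exact ((ev_iff' hz).1 (hδ.op.eventually_mem hO)).mono fun w hw => hq _ hw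

theorem an_log {f : E n → ℂ} (h : HolN f z) (h0 : f z ≠ 0) :
    AnalyticAt ℝ (fun w => Real.log (normSq (f w))) z := by
  have a := an_of_hol h
  have p := (reCLM.analyticAt _).comp a
  have q := (imCLM.analyticAt _).comp a
  exact (analyticAt_log (normSq_pos.2 h0)).comp (f := fun w => normSq (f w))
    ((p.mul p).add (q.mul q))

theorem lgs_at {φ : M.Fam ℝ} (hs : MerSec M L m s W) (hφ : M.WtC L φ) (hx : x ∈ W) :
    At M x fun e z => lgs M φ m s x = Real.log (normSq (s e z)) - m * φ e z := fun e he h => by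
  have c := Mf.ch_mem x
  have d := Mf.mem_ch x
  have a1 := normSq_pos.2 (hs.hol x hx e he h).2
  have a2 := normSq_pos.2 (L.ne e he _ c x h d)
  rw [lgs, Mf.ev, Mf.ev, hs.cmp e he _ c x h d hx, hφ.cmp e he _ c x h d, map_mul, map_pow,
    Real.log_mul a1.ne' (pow_pos a2 m).ne', Real.log_pow]
  ring

theorem lgs_ev {φ : M.Fam ℝ} (hs : MerSec M L m s W) (hφ : M.WtC L φ) (hW : IsOpen W)
    (hx : x ∈ W) (he : e ∈ M.C) (h : x ∈ e.source) : lgs M φ m s ∘ e.symm =ᶠ[𝓝 (e x)]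
      fun w => Real.log (normSq (s e w)) - m * φ e w := by
  filter_upwards [(ev_iff h).1 (hW.eventually_mem hx), e.open_target.mem_nhds (e.map_source h)]
    with w h1 h2 using at_tgt he h2 (lgs_at hs hφ h1)

end FSEC

open KA FSEC in
theorem st_FSEC : St_FSEC := by
  intro n m M L W s
  refine ⟨fun hs => ⟨fun W' h => ⟨fun e he e' he' x hx hx' hW => hs.cmp e he e' he' x hx hx' (h hW),
    fun x hx => hs.hol x (h hx), fun e he z hz => ?_⟩, fun g a hg hW => ⟨?_, ?_, ?_⟩,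
    fun φ hφ han hW x hx => ⟨fun e he h => ?_, fun e he h => ?_, lgs_at hs hφ hx⟩⟩,
    fun g hg hW => ⟨?_, ?_, ?_⟩⟩
  · obtain ⟨a, b, h1, h2, h3, h4⟩ := hs.mer e he z hz
    exact ⟨a, b, h1, h2, h3, h4.mono fun w p q => p (h q)⟩
  · intro e he e' he' x hx hx' h
    rw [e.left_inv hx, e'.left_inv hx', hs.cmp e he e' he' x hx hx' h, mul_pow, ← pow_mul,
      mul_comm m a, mul_assoc]
  · intro x hx e he h
    obtain ⟨p, q⟩ := hs.hol x hx e he h
    refine ⟨((hW x hx).1 e he h).and p |>.mono fun w hw => hw.1.mul (hw.2.pow a), ?_⟩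
    rw [e.left_inv h]
    exact mul_ne_zero (hW x hx).2 (pow_ne_zero a q)
  · intro e he z hz
    obtain ⟨p, q, h1, h2, h3, h4⟩ := hs.mer e he z hz
    obtain ⟨p', q', k1, k2, k3, k4⟩ := mer_ch hg he hz
    refine ⟨fun w => p' w * p w ^ a * q w, fun w => q' w * q w ^ (a + 1),
      (k1.and (h1.and h2)).mono fun w hw => (hw.1.mul (hw.2.1.pow a)).mul hw.2.2,
      (k2.and h2).mono fun w hw => hw.1.mul (hw.2.pow _),
      (nz_mul k2 h2 k3 h3).mono fun w hw => ?_, ?_⟩
    · exact mul_ne_zero (left_ne_zero_of_mul hw) (pow_ne_zero _ (right_ne_zero_of_mul hw))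
    · filter_upwards [h4, k4] with w r1 r2 hw h0
      have b1 := left_ne_zero_of_mul h0
      have b2 : q w ≠ 0 := fun c => right_ne_zero_of_mul h0 (by simp [c])
      rw [r1 hw b2, r2 b1, div_pow]
      field_simp
      ring
  · obtain ⟨p, q⟩ := hs.hol x hx e he h
    exact ((an_log p q).sub (analyticAt_const.mul (han e he _ (e.map_source h)))).congr
      (lgs_ev hs hφ hW hx he h).symm
  · obtain ⟨p, q⟩ := hs.hol x hx e he h
    obtain ⟨r1, r2, -⟩ := ((mHOL n _ _).2.2 p).2.2.2 q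
    have r3 := cd_ofReal (hφ.sm e he _ (e.map_source h))
    have r4 := hess_sub (cd_ofReal r1) (contDiffAt_const (c := (m : ℂ)).mul r3)
    rw [r2, hess_const_mul _ r3, zero_sub] at r4
    show M.hs (lgs M φ m s) e (e x) = -((m : ℝ) • M.hw φ e (e x))
    rw [hs_eq, hr_congr (lgs_ev hs hφ hW hx he h), hr]
    simp only [ofReal_sub, ofReal_mul, ofReal_natCast]
    rw [r4]
    ext i j
    simp [Mf.hw]
  · intro e he e' he' x hx hx' h
    rw [e.left_inv hx, e'.left_inv hx', pow_zero, mul_one]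
  · intro x hx e he h
    exact ⟨(hW x hx).1 e he h, by rw [e.left_inv h]; exact (hW x hx).2⟩
  · intro e he z hz
    obtain ⟨p', q', k1, k2, k3, k4⟩ := mer_ch hg he hz
    exact ⟨p', q', k1, k2, k3, k4.mono fun w p _ => p⟩

end Pool.Agent.Lib.RA
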