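import Pool.Agent.Lib.RYF.BlueF
import Pool.Agent.Lib.RY.B_MER
import Pool.Agent.Lib.RY.K_At
import Pool.Agent.Lib.PN.Kit

/-! Project ra2, step F: the consequences of coercivity. -/

open scoped Classical Topology ContDiff ComplexOrder Matrix
open Set MeasureTheory Complex Metric Filter

set_option linter.unusedVariables false

noncomputable section

namespace Pool.Agent.Lib.RA

open Pool.Agent.Lib.SV (E nsq)
open Pool.Agent.Lib.HS32 Pool.Agent.Lib.PN

namespace FU0

variable {n m : ℕ} {M : Mf n} {ι : Type} [Fintype ι] {f : M.X → ι → ℂ} {i : ι} {x : M.X}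
  {θ : M.X → ℂ}

theorem nsq_af (h : f x i ≠ 0) : nsq (af f i x) = nsq (f x) / normSq (f x i) := by
  simp only [nsq, af, map_div₀, Finset.sum_div]

theorem cont_log (hf : PMap M f) (hs : SecO M f m θ) (h : θ x ≠ 0) :
    ContinuousAt (fun y => Real.log (no f m θ y)) x := by
  obtain ⟨i, hi⟩ := Function.ne_iff.1 (hf.ne x)
  have hi : f x i ≠ 0 := hi
  have c1 : ContinuousAt (fun y => normSq (θ y / f y i ^ m)) x :=
    continuous_normSq.continuousAt.comp (hs x i hi).cont
  have c2 : ContinuousAt (fun y => nsq (af f i y)) x := by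
    unfold nsq
    exact tendsto_finsetSum _ fun l _ =>
      continuous_normSq.continuousAt.comp (holAt_pi.1 (M86.pm_hol hf hi) l).cont
  have p : 0 < nsq (f x) := nsq_pos (hf.ne x)
  have q : 0 < normSq (f x i) := normSq_pos.2 hi
  have c3 : ContinuousAt (no f m θ) x := by
    refine (c1.div (c2.pow m) (by rw [Pi.pow_apply, nsq_af hi]; positivity)).congr ?_
    filter_upwards [(M86.pm_open hf i).mem_nhds hi] with y hy
    have hy : f y i ≠ 0 := hy
    simp only [Pi.div_apply, Pi.pow_apply, nsq_af hy, no, map_div₀, map_pow, div_pow]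
    rw [div_div_div_cancel_right₀ (pow_ne_zero _ (normSq_pos.2 hy).ne')]
  refine c3.log ?_
  have := normSq_pos.2 h
  unfold no
  positivity

end FU0

open FU0 in
theorem st_FU0 : St_FU0 := by
  intro n k M _ ι _ f L φ ρ b i₀ m θ s hf hC ⟨x₀, hx₀⟩ h0
  obtain ⟨c, C, c0, C0, hb⟩ := hC.bd
  refine ⟨hC.op.inter (M86.pm_open hf i₀), ⟨fun e he e' he' x hx hx' h =>
    hC.ms.cmp e he e' he' x hx hx' h.1, fun x hx => hC.ms.hol x hx.1, fun e he z hz => ?_⟩,
    fun x hx => ?_, C + C / c, fun x hx hi => ?_, fun x y ξ hx hy hR => ?_⟩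
  · obtain ⟨a, b, h1, h2, h3, h4⟩ := hC.ms.mer e he z hz
    exact ⟨a, b, h1, h2, h3, h4.mono fun w p q => p q.1⟩
  · refine ⟨c, C * (1 + (|Real.log (no f m θ x)| + 1)), c0, ?_⟩
    filter_upwards [hC.op.mem_nhds hx, (cont_log hf hC.so hx).abs.eventually_lt_const
      (lt_add_one |Real.log (no f m θ x)|)] with y h1 h2 ξ
    have h3 := ((hb y).2 h1).1 ξ
    nlinarith
  · have h1 := ((hb x).2 hx).2
    have a1 := abs_nonneg (Real.log (no f m θ x))
    have a2 := abs_nonneg (Real.log (nsq (af f i₀ x)))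
    have h6 : 0 < C / c := by positivity
    rw [lgs, Nat.cast_one, one_mul]
    nlinarith [mul_nonneg h6.le a1, mul_nonneg h6.le a2, mul_nonneg C0.le a2]
  · have h1 := ((hb x).2 hx).1 (-ξ)
    have h2 := ((hb y).2 hy).1 ξ
    rw [hR (-ξ), add_neg_cancel, h0, norm_neg, dotProduct_neg] at h1
    have a1 := abs_nonneg (Real.log (no f m θ x))
    have a2 := abs_nonneg (Real.log (no f m θ y))
    have h3 : ‖ξ‖ ≤ C / c * (1 + |Real.log (no f m θ x)| + |Real.log (no f m θ y)|) := by
      rw [div_mul_eq_mul_div, le_div_iff₀ c0]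
      nlinarith [mul_nonneg C0.le a1, mul_nonneg C0.le a2]
    refine h3.trans (mul_le_mul_of_nonneg_right (le_add_of_nonneg_left ?_) ?_) <;> positivity

end Pool.Agent.Lib.RA
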