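import Pool.Agent.Lib.RYF.BlueS
import Pool.Agent.Lib.RA.T_QB

/-! Project ra2: from multiplicative cocycles to additive ones. -/

open scoped Classical Topology ContDiff ComplexOrder Matrix
open Set MeasureTheory Complex Metric Filter

noncomputable section

namespace Pool.Agent.Lib.RAF

open Pool.Agent.Lib.SV (E nsq)
open Pool.Agent.Lib.HS32 Pool.Agent.Lib.RA

namespace LGC

variable {κ : Type} [Fintype κ] (p : ℝ →ₗ[ℚ] ℝ) (l : κ → ℝ) (i : κ)

/-- The corrected logarithm. -/
def cb (L : κ → ℂ) (D : ℂ) : ℂ := L i - I * (p (∑ j, l j * L j - D).im : ℝ)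

theorem cb_add (L L' : κ → ℂ) (D D' : ℂ) :
    cb p l i (fun j => L j + L' j) (D + D') = cb p l i L D + cb p l i L' D' := by
  have h : ∑ j, (l j : ℂ) * (L j + L' j) - (D + D') =
      (∑ j, l j * L j - D) + (∑ j, l j * L' j - D') := by
    simp only [mul_add, Finset.sum_add_distrib]
    ring
  simp only [cb]
  rw [h, add_im, map_add, ofReal_add]
  ring

theorem cb_re (L : κ → ℂ) (D : ℂ) : (cb p l i L D).re = (L i).re := by
  simp [cb]

variable {p l i}

theorem cb_int (hp : ∀ j, p (2 * Real.pi * l j) = if j = i then 2 * Real.pi else 0) (m : κ → ℤ) :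
    cb p l i (fun j => m j * (2 * Real.pi * I)) 0 = 0 := by
  have h : (∑ j, (l j : ℂ) * (m j * (2 * Real.pi * I)) - 0).im =
      ∑ j, m j • (2 * Real.pi * l j) := by
    rw [sub_zero, im_sum]
    refine Finset.sum_congr rfl fun j _ => ?_
    simp only [zsmul_eq_mul, mul_im, mul_re, ofReal_re, ofReal_im, intCast_re, intCast_im, I_re,
      I_im, re_ofNat, im_ofNat]
    ring
  simp only [cb]
  rw [h, map_sum]
  simp only [map_zsmul, hp, smul_ite, smul_zero, Finset.sum_ite_eq', Finset.mem_univ, if_true]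
  rw [zsmul_eq_mul]
  push_cast
  ring

theorem cb_congr (hp : ∀ j, p (2 * Real.pi * l j) = if j = i then 2 * Real.pi else 0)
    {L L' : κ → ℂ} (h : ∀ j, exp (L j) = exp (L' j)) (D : ℂ) : cb p l i L D = cb p l i L' D := by
  choose m hm using fun j => exp_eq_exp_iff_exists_int.1 (h j)
  have h1 := cb_add p l i L' (fun j => m j * (2 * Real.pi * I)) D 0
  rw [cb_int hp, add_zero, add_zero] at h1
  rw [← h1, funext hm]

theorem re_log {z L : ℂ} (h : exp L = z) : 2 * L.re = Real.log (normSq z) := by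
  rw [← h, normSq_eq_norm_sq, norm_exp, Real.log_pow, Real.log_exp]
  norm_num

/-- A local holomorphic logarithm. -/
theorem loc_log {n : ℕ} {M : Mf n} {f : M.X → ℂ} {x : M.X} (h : HolAt M f x) (h0 : f x ≠ 0) :
    ∃ L : M.X → ℂ, HolAt M L x ∧ ∀ᶠ y in 𝓝 x, exp (L y) = f y := by
  refine ⟨fun y => log (f x) + log (f y / f x), (holAt_const _).add ?_, ?_⟩
  · refine (h.div (holAt_const _) h0).comp (φ := log) ?_
    rw [div_self h0]
    filter_upwards [isOpen_slitPlane.mem_nhds one_mem_slitPlane] with v hv using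
      differentiableAt_log hv
  · filter_upwards [h.cont.eventually_ne h0] with y hy
    rw [exp_add, exp_log h0, exp_log (div_ne_zero hy h0), mul_div_cancel₀ _ h0]

end LGC

open LGC in
theorem st_LGC : St_LGC := by
  intro n M κ ι _ l O U A hl hO hU hA hs i
  obtain ⟨p, hp⟩ := st_QB.2 κ l (fun j => if j = i then 2 * Real.pi else 0) (2 * Real.pi) hl
    Real.two_pi_pos.ne'
  have he : ∀ j u v y, y ∈ O u → y ∈ O v → exp (log (U j u v y)) = U j u v y :=
    fun j u v y hu hv => exp_log ((hU j).hol u v y hu hv).2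
  refine ⟨fun u v y => cb p l i (fun j => log (U j u v y)) (A v y - A u y), ⟨?_, ?_⟩, ?_⟩
  · intro u v x hu hv
    choose L hL hL' using fun j => loc_log ((hU j).hol u v x hu hv).1 ((hU j).hol u v x hu hv).2
    have h1 : HolAt M (fun y => ∑ j, l j * L j y - (A v y - A u y)) x :=
      (holAt_sum fun j _ => (holAt_const _).mul (hL j)).sub ((hA v x hv).sub (hA u x hu))
    have h2 : ∀ᶠ y in 𝓝 x, (y ∈ O u ∧ y ∈ O v) ∧ ∀ j, exp (L j y) = U j u v y :=
      (((hO u).eventually_mem hu).and ((hO v).eventually_mem hv)).and (eventually_all.2 hL')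
    have h3 := const_of_re h1 (c := 0) (h2.mono fun y hy => by
      have h4 := hs u v y hy.1.1 hy.1.2
      simp only [← re_log (hy.2 _)] at h4
      have h5 : ∑ j, l j * (2 * (L j y).re) = 2 * ∑ j, l j * (L j y).re := by
        rw [Finset.mul_sum]
        exact Finset.sum_congr rfl fun j _ => by ring
      rw [sub_re, re_sum]
      simp only [re_ofReal_mul]
      linarith)
    refine ((hL i).sub (holAt_const
      (I * (p (∑ j, l j * L j x - (A v x - A u x)).im : ℝ)))).congr ?_
    filter_upwards [h2, h3] with y hy hy'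
    rw [cb_congr hp (L' := fun j => L j y) (fun j => by rw [he j u v y hy.1.1 hy.1.2, hy.2]), cb,
      hy']
  · intro a b c y ha hb hc
    rw [← cb_add, show A b y - A a y + (A c y - A b y) = A c y - A a y by ring]
    refine cb_congr hp (fun j => ?_) _
    rw [exp_add, he j a b y ha hb, he j b c y hb hc, he j a c y ha hc, (hU j).coc a b c y ha hb hc]
  · intro u v y hu hv
    rw [cb_re, re_log (he i u v y hu hv)]

end Pool.Agent.Lib.RAF
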