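import Pool.Agent.Lib.RYF.BlueF

/-! Project ra2, step F: elementary properties of the relation. -/

open scoped Classical Topology Matrix
open Set Complex Filter

set_option linter.unusedVariables false

noncomputable section

namespace Pool.Agent.Lib.RA

open Pool.Agent.Lib.SV (E)

namespace FREL49

lemma per {k : ℕ} {g : (Fin k → ℝ) → ℝ} {b d : Fin k → ℝ} {c C κ : ℝ} (hc : 0 < c)
    (h : ∀ ξ, c * ‖ξ‖ - C ≤ g ξ - b ⬝ᵥ ξ) (hp : ∀ a, g (a + d) = g a + κ) : d = 0 := by
  have it : ∀ (m : ℕ) a, g (a + (m : ℝ) • d) = g a + m * κ := fun m => by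
    induction m with
    | zero => simp
    | succ m ih =>
      intro a
      rw [Nat.cast_succ, add_smul, one_smul, ← add_assoc, hp, ih]
      ring
  by_contra hd
  have h0 : 0 < c * ‖d‖ := mul_pos hc (norm_pos_iff.2 hd)
  obtain ⟨m, hm⟩ := exists_nat_gt ((g 0 + C) / (c * ‖d‖))
  rw [div_lt_iff₀ h0] at hm
  have h1 := h ((m : ℝ) • d)
  have h2 := h (-((m : ℝ) • d))
  have h3 := it m 0
  have h4 := it m (-((m : ℝ) • d))
  rw [zero_add] at h3
  rw [neg_add_cancel] at h4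
  rw [norm_neg, dotProduct_neg] at h2
  rw [norm_smul, Real.norm_natCast] at h1 h2
  nlinarith

lemma sh_eq {k j : ℕ} (t t' : E (k + j)) (h : sx t = sx t') (ζ : Fin k → ℝ) :
    sh t' (r2 (fx t) - r2 (fx t') + ζ) =
      sh t ζ + I • io j fun i => (fx t' i).im - (fx t i).im := by
  funext a
  refine Fin.addCases (fun i => ?_) (fun l => ?_) a
  · apply Complex.ext <;> simp [sh, io, cx, r2, fx] <;> ring
  · have := congrFun h l
    simp only [sx] at this
    simp [sh, io, this]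

lemma sh0 {k j : ℕ} (t : E (k + j)) : sh t (0 : Fin k → ℝ) = t := by
  funext a
  refine Fin.addCases (fun i => ?_) (fun l => ?_) a <;> simp [sh, io, cx]

end FREL49

open FREL49 in
theorem st_FREL : St_FREL := by
  intro k X _ ρ
  have h2 : ∀ x y ξ, Rel ρ x y ξ → Rel ρ x y (xi ρ x y) := fun x y ξ h => by
    have e : ∃ ξ, Rel ρ x y ξ := ⟨ξ, h⟩
    rw [xi, dif_pos e]
    exact e.choose_spec
  refine ⟨fun x y z ξ ξ' h h' ζ => ?_, h2, fun b y ⟨c, C, hc, h⟩ =>
    ⟨h.eventually_nhds.mono fun y' hy => ⟨c, C, hc, hy⟩, fun x ξ hξ => ?_⟩,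
    fun j ψ x y t t' hi hx hy hs => ?_⟩
  · rw [h, h', h' ξ, add_assoc]
    ring
  · refine sub_eq_zero.1 (per (g := fun a => ρ a y) (κ := ρ (xi ρ x y) y - ρ ξ y) hc
      h.self_of_nhds fun a => ?_)
    have a1 := hξ (a - ξ)
    have a2 := h2 x y ξ hξ (a - ξ)
    rw [add_sub_cancel] at a1
    rw [show a + (xi ρ x y - ξ) = xi ρ x y + (a - ξ) by abel]
    linarith
  · have e0 : ρ (r2 (fx t) - r2 (fx t')) y = ψ t - ψ t' := by
      have := sh_eq t t' hs 0
      rw [add_zero, sh0] at this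
      rw [hy, this, hi]
    refine ⟨fun ζ => ?_, e0⟩
    rw [e0, hx, hy, sh_eq t t' hs, hi]
    ring

end Pool.Agent.Lib.RA
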