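import Pool.Agent.Lib.RYF.BlueS
import Pool.Agent.Lib.RA.T_UN

/-! Where an independent combination is bounded, each term extends smoothly. -/

open scoped Classical Topology ContDiff ComplexOrder Matrix
open Set MeasureTheory Complex Metric Filter

set_option linter.unusedVariables false

noncomputable section

namespace Pool.Agent.Lib.RAF

open Pool.Agent.Lib.SV (E nsq)
open Pool.Agent.Lib.HS32 Pool.Agent.Lib.RA

namespace UNS

variable {n : ℕ} {M : Mf n} {φ : M.Fam ℝ} {W : Set M.X}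

theorem freq (hW : Cothin M W) (x : M.X) : ∃ᶠ y in 𝓝 x, y ∈ W := by
  obtain ⟨O, δ, hx, hd, h⟩ := hW.2 x
  exact ((hd.ne x hx).and_eventually (hd.op.mem_nhds hx)).mono fun y hy => h y hy.2 hy.1

/-- The extension by limits agrees with any continuous local extension. -/
theorem lim_eq (hW : Cothin M W) {g v : M.X → ℝ} {x : M.X} (hv : ∀ᶠ y in 𝓝 x, ContinuousAt v y)
    (e : ∀ᶠ y in 𝓝 x, y ∈ W → g y = v y) :
    (fun y => limUnder (𝓝[W] y) g) =ᶠ[𝓝 x] v := by
  filter_upwards [hv, e.eventually_nhds] with y h1 h2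
  have : (𝓝[W] y).NeBot := mem_closure_iff_nhdsWithin_neBot.1
    (mem_closure_iff_frequently.2 (freq hW y))
  refine Tendsto.limUnder_eq ((h1.tendsto.mono_left nhdsWithin_le_nhds).congr' ?_)
  filter_upwards [h2.filter_mono nhdsWithin_le_nhds, self_mem_nhdsWithin] with y' a b
  exact (a b).symm

/-- Consequences of a local unit. -/
theorem of_unit (hφ : WtP M φ) (hW : Cothin M W) {g : M.X → ℝ} {ν : ℕ} {x : M.X} {w : E n → ℂ}
    (hw : HolN w (M.ch x x)) (h0 : w (M.ch x x) ≠ 0)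
    (e : ∀ᶠ y in 𝓝 x, y ∈ W →
      g y = Real.log (normSq (w (M.ch x y))) - ν * φ (M.ch x) (M.ch x y)) :
    (x ∈ W → limUnder (𝓝[W] x) g = g x) ∧ SmAt M (fun y => limUnder (𝓝[W] y) g) x ∧
      At M x fun e z => M.hs (fun y => limUnder (𝓝[W] y) g) e z = (-(ν : ℝ)) • M.hw φ e z := by
  have hc := Mf.ch_mem x
  have hx := Mf.mem_ch x
  have ht := (M.ch x).map_source hx
  have h1 : ∀ᶠ z in 𝓝 (M.ch x x),
      ContinuousAt (fun z => Real.log (normSq (w z)) - ν * φ (M.ch x) z) z := by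
    filter_upwards [hw.eventually_nhds, hw.self_of_nhds.continuousAt.eventually_ne h0,
      (M.ch x).open_target.mem_nhds ht] with z a b c
    exact (((mHOL n w z).2.2 a).2.2.2 b).1.continuousAt.sub
      (continuousAt_const.mul (hφ.sm _ hc z c).continuousAt)
  have h2 := lim_eq hW (g := g) (x := x)
    (v := fun y => Real.log (normSq (w (M.ch x y))) - ν * φ (M.ch x) (M.ch x y)) (by
      filter_upwards [ev_ch' hx h1, (M.ch x).open_source.mem_nhds hx] with y a b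
      exact ContinuousAt.comp (g := fun z => Real.log (normSq (w z)) - ν * φ (M.ch x) z) a
        ((M.ch x).continuousAt b)) e
  have h3 : (fun y => limUnder (𝓝[W] y) g) ∘ (M.ch x).symm =ᶠ[𝓝 (M.ch x x)]
      fun z => Real.log (normSq (w z)) - ν * φ (M.ch x) z := by
    filter_upwards [KA.eq_chart h2 hx, (M.ch x).open_target.mem_nhds ht] with z a b
    rw [a, Function.comp, (M.ch x).right_inv b]
  obtain ⟨k1, k2, -⟩ := ((mHOL n w _).2.2 hw).2.2.2 h0
  have k3 := hφ.sm _ hc _ ht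
  have h4 : SmAt M (fun y => limUnder (𝓝[W] y) g) x :=
    KA.smAt_of hc hx ((k1.sub (contDiffAt_const.mul k3)).congr_of_eventuallyEq h3)
  refine ⟨fun hxW => h2.self_of_nhds.trans (e.self_of_nhds hxW).symm, h4,
    KA.eqAt_hs (T := (-(ν : ℝ)) • M.hw φ) h4 ((KA.ten_hw hφ).smul _) hc hx ?_⟩
  rw [KA.hs_eq, KA.hr_congr h3]
  have h5 : (fun z => ((Real.log (normSq (w z)) - ν * φ (M.ch x) z : ℝ) : ℂ)) = fun z =>
      ((Real.log (normSq (w z)) : ℝ) : ℂ) - (ν : ℂ) * (φ (M.ch x) z : ℂ) := by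
    funext z
    rw [ofReal_sub, ofReal_mul, ofReal_natCast]
  rw [RA.hr, h5, hess_sub (cd_ofReal k1) (contDiffAt_const.mul (cd_ofReal k3)), k2,
    hess_const_mul _ (cd_ofReal k3)]
  ext a b
  simp [Mf.hw]

/-- The local units. -/
theorem unit {κ : Type} [Fintype κ] {l : κ → ℝ} {ν : κ → ℕ} {s : κ → M.Fam ℂ} {L : M.Co}
    (hφ : M.WtC L φ)
    (hW : Cothin M W) (hl : LinearIndependent ℚ l) (hs : ∀ i, MerSec M L (ν i) (s i) W) {x : M.X}
    {C : ℝ} (hC : ∀ᶠ y in 𝓝 x, y ∈ W → |∑ i, l i * hn M φ (ν i) (s i) y| ≤ C) (i : κ) :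
    ∃ w, HolN w (M.ch x x) ∧ w (M.ch x x) ≠ 0 ∧ ∀ᶠ y in 𝓝 x, y ∈ W → hn M φ (ν i) (s i) y =
      Real.log (normSq (w (M.ch x y))) - ν i * φ (M.ch x) (M.ch x y) := by
  have hc := Mf.ch_mem x
  have hx := Mf.mem_ch x
  generalize M.ch x = e at hc hx
  have ht := e.map_source hx
  have htn := e.open_target.mem_nhds ht
  choose a b ha hb hb0 hab using fun j => (hs j).mer e hc _ ht
  obtain ⟨O, δ, hxO, hd, hδ⟩ := hW.2 x
  have d1 : HolN (δ ∘ e.symm) (e x) := hd.hol x hxO e hc hx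
  have d2 : ∃ᶠ z in 𝓝 (e x), (δ ∘ e.symm) z ≠ 0 := (fr_ch hx).1 (hd.ne x hxO)
  have d3 : ∀ᶠ z in 𝓝 (e x), (δ ∘ e.symm) z ≠ 0 → e.symm z ∈ W :=
    ((ev_ch hx).1 (hd.op.eventually_mem hxO)).mono fun z hz h => hδ _ hz h
  have sne : ∀ j, ∀ z ∈ e.target, e.symm z ∈ W → HolN (s j e) z ∧ s j e z ≠ 0 :=
    fun j z hz h => KA.at_tgt hc hz ((hs j).hol _ h)
  have ha0 : ∀ j, ∃ᶠ z in 𝓝 (e x), a j z ≠ 0 := fun j => by
    refine ((Un.freq_mul d1 (hb j) d2 (hb0 j)).and_eventually (d3.and ((hab j).and htn))).mono ?_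
    rintro z ⟨h1, h2, h3, h4⟩ h5
    have h6 := h2 (left_ne_zero_of_mul h1)
    exact (sne j z h4 h6).2 (by rw [h3 h6 (right_ne_zero_of_mul h1), h5, zero_div])
  have hP : ContinuousAt (fun z => ∑ j, l j * (ν j * φ e z)) (e x) :=
    tendsto_finsetSum _ fun j _ =>
      continuousAt_const.mul (continuousAt_const.mul (hφ.sm e hc _ ht).continuousAt)
  obtain ⟨w, w1, w2, w3⟩ := st_UND n κ l a b (δ ∘ e.symm) (e x)
    (C + (|∑ j, l j * (ν j * φ e (e x))| + 1)) hl (fun j => ⟨ha j, hb j, ha0 j, hb0 j⟩) d1 d2 (by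
      filter_upwards [d3, (ev_ch hx).1 hC, eventually_all.2 hab, htn,
        hP.abs.eventually_lt_const (lt_add_one _)] with z h1 h2 h3 h4 h5 h6 h7
      have h8 : ∑ j, l j * Real.log (normSq (a j z / b j z)) =
          ∑ j, l j * hn M φ (ν j) (s j) (e.symm z) + ∑ j, l j * (ν j * φ e z) := by
        rw [← Finset.sum_add_distrib]
        refine Finset.sum_congr rfl fun j _ => ?_
        rw [hn_ch hφ (hs j) (h1 h6) hc (e.map_target h4), e.right_inv h4, h3 j (h1 h6) (h7 j).2]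
        ring
      rw [h8]
      exact (abs_add_le _ _).trans (add_le_add (h2 (h1 h6)) h5.le)) i
  refine ⟨w, w1, w2, ?_⟩
  have key : ∀ᶠ z in 𝓝 (e x), e.symm z ∈ W → s i e z = w z := by
    filter_upwards [w3.eventually_nhds, (hab i).eventually_nhds, Un.dense_ne (hb i) (hb0 i), w1,
      htn] with z h1 h2 h3 h4 h5 h6
    have h7 : ∀ᶠ z' in 𝓝 z, e.symm z' ∈ W :=
      (e.continuousAt_symm h5).eventually (hW.1.mem_nhds h6)
    refine tendsto_nhds_unique_of_frequently_eq (sne i z h5 h6).1.self_of_nhds.continuousAt.tendsto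
      h4.continuousAt.tendsto ((h3.and_eventually (h1.and (h2.and h7))).mono ?_)
    rintro z' ⟨g1, g2, g3, g4⟩
    rw [g3 g4 g1, g2, mul_div_assoc, div_self g1, mul_one]
  filter_upwards [ev_ch' hx key, e.open_source.mem_nhds hx] with y h1 h2 h3
  rw [hn_ch hφ (hs i) h3 hc h2, h1 (by rwa [e.left_inv h2])]

end UNS

open UNS in
theorem st_UNS : St_UNS := by
  intro n M κ _ L φ W U l ν s hφ hW hl hs hC i
  refine ⟨fun y => limUnder (𝓝[W] y) (hn M φ (ν i) (s i)), fun x hx => ?_, fun x hx => ?_⟩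
  · obtain ⟨h1, h2⟩ := KA.at_ch ((hs i).hol x hx)
    refine (of_unit (ν := ν i) (wtP_of hφ) hW h1 h2 ?_).1 hx
    filter_upwards [(M.ch x).open_source.mem_nhds (Mf.mem_ch x)] with y a b
    exact hn_ch hφ (hs i) b (Mf.ch_mem x) a
  · obtain ⟨C, h⟩ := hC x hx
    obtain ⟨w, w1, w2, w3⟩ := unit hφ hW hl hs h i
    exact (of_unit (wtP_of hφ) hW w1 w2 w3).2

end Pool.Agent.Lib.RAF
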