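import Pool.Agent.Lib.RY.Blue0
import Pool.Agent.Lib.RA.T_SH

/-! Project ra2: the sub-blueprint of step F. -/

open scoped Classical Topology ContDiff ComplexOrder Matrix
open Set MeasureTheory Complex Metric Filter

set_option linter.unusedVariables false

noncomputable section

namespace Pool.Agent.Lib.RA

open Pool.Agent.Lib.SV (E nsq)
open Pool.Agent.Lib.HS32 Pool.Agent.Lib.PN Pool.Agent.Lib.UR.M

section mf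

variable {n k : ℕ} (M : Mf n)

/-- A germ of a holomorphic map of the manifold to itself. -/
def HM (x : M.X) (y : M.X → M.X) : Prop :=
  ContinuousAt y x ∧ ∀ e ∈ M.C, y x ∈ e.source → HolAt M (e ∘ y) x

/-- The logarithm of the squared norm of a section. -/
def lgs (φ : M.Fam ℝ) (m : ℕ) (s : M.Fam ℂ) (x : M.X) : ℝ :=
  Real.log (normSq (M.ev s x)) - m * M.ev φ x

/-- Logarithmic growth, uniformly on the sets `S x`. -/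
def LogS (W : Set M.X) (S : M.X → Set M.X) (g : M.X → M.X → ℝ) : Prop :=
  ∀ x, ∃ (O : Set M.X) (δ : M.X → ℂ) (C : ℝ), x ∈ O ∧ Dv M O δ ∧
    ∀ x' ∈ O, δ x' ≠ 0 → x' ∈ W ∧ ∀ y ∈ S x', |g x' y| ≤ C * (1 - Real.log ‖δ x'‖)

/-- A finite correspondence that is unramified over `W`. -/
structure Cor (W : Set M.X) (S : M.X → Set M.X) (N : ℕ) : Prop where
  cot : Cothin M W
  sh : ∀ x ∈ W, ShAt (HM M) S x
  card : ∀ x ∈ W, (S x).ncard ≤ N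

/-- The function `ρ (·) x` is the translate of `ρ (·) y` by `ξ`. -/
def Rel {X : Type} (ρ : (Fin k → ℝ) → X → ℝ) (x y : X) (ξ : Fin k → ℝ) : Prop :=
  ∀ ζ, ρ ζ x = ρ (ξ + ζ) y - ρ ξ y

/-- The translation vector. -/
def xi {X : Type} (ρ : (Fin k → ℝ) → X → ℝ) (x y : X) : Fin k → ℝ :=
  if h : ∃ ξ, Rel ρ x y ξ then h.choose else 0

/-- The relation `R` along the map `y` near `x`. -/
structure TR (ρ : (Fin k → ℝ) → M.X → ℝ) (u : M.X → ℝ) (x : M.X) (y : M.X → M.X) : Prop where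
  ex : ∀ᶠ x' in 𝓝 x, ∃ ξ, Rel ρ x' (y x') ξ
  ph : ∀ i, PhAt M (fun x' => xi ρ x' (y x') i) x
  p0 : PhAt M (fun x' => u (y x') - ρ (xi ρ x' (y x')) (y x') - u x') x

/-- Uniform coercivity near `x`. -/
def Cv {X : Type} [TopologicalSpace X] (ρ : (Fin k → ℝ) → X → ℝ) (b : Fin k → ℝ) (x : X) : Prop :=
  ∃ c C : ℝ, 0 < c ∧ ∀ᶠ x' in 𝓝 x, ∀ ξ, c * ‖ξ‖ - C ≤ ρ ξ x' - b ⬝ᵥ ξ

/-- A local potential of minus the curvature. -/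
def NPot (φ : M.Fam ℝ) (u : M.X → ℝ) (x : M.X) : Prop :=
  ∀ᶠ y in 𝓝 x, AnAt M u y ∧ EqAt M (M.hs u) (-M.hw φ) y

/-- The differential of `g` kills the kernel of the curvature at `x`. -/
def Kil {F : Type} [NormedAddCommGroup F] [NormedSpace ℂ F] (φ : M.Fam ℝ) (g : M.X → F)
    (x : M.X) : Prop :=
  At M x fun e z => ∀ v, M.hw φ e z *ᵥ v = 0 → fderiv ℂ (g ∘ e.symm) z v = 0

/-- The sum of the translation vectors. -/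
def gx (ρ : (Fin k → ℝ) → M.X → ℝ) (S : M.X → Set M.X) (i : Fin k) (x : M.X) : ℝ :=
  ∑ᶠ y ∈ S x, xi ρ x y i

/-- The sum of the potentials. -/
def g0 (ρ : (Fin k → ℝ) → M.X → ℝ) (u : M.X → ℝ) (S : M.X → Set M.X) (x : M.X) : ℝ :=
  ∑ᶠ y ∈ S x, (u y - ρ (xi ρ x y) y - u x)

end mf

section plq

variable {q j : ℕ} (M : Mf (q + j))

/-- The point of the plaque with given first coordinates. -/
def yy (e : M.Ch) (c : E (q + j)) (x : M.X) : M.X := e.symm (Fin.append (fx c) (sx (e x)))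

/-- The correspondence contains `yy` and does not depend on the first coordinates. -/
structure Lnk (e : M.Ch) (a₁ : E (q + j)) (R₁ : ℝ) (W : Set M.X) (S : M.X → Set M.X) : Prop where
  mem : ∀ z ∈ ball a₁ R₁, e.symm z ∈ W → yy M e a₁ (e.symm z) ∈ S (e.symm z)
  bas : ∀ z ∈ ball a₁ R₁, e.symm z ∈ W →
    ∀ᶠ x in 𝓝 (e.symm z), S x = S (yy M e z x)

end plq

/-- Calculus of holomorphic maps and pluriharmonic functions. -/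
def St_FHM : Prop := ∀ (n : ℕ) (M : Mf n), GP (HM M) ∧
  (∀ x y, HM M x y → (∀ (F : Type) [NormedAddCommGroup F] [NormedSpace ℂ F] (g : M.X → F),
      HolAt M g (y x) → HolAt M (fun x' => g (y x')) x) ∧
    (∀ (F : Type) [NormedAddCommGroup F] [NormedSpace ℝ F] (g : M.X → F),
      (AnAt M g (y x) → AnAt M (fun x' => g (y x')) x) ∧
      (SmAt M g (y x) → SmAt M (fun x' => g (y x')) x)) ∧
    (∀ g, PhAt M g (y x) → PhAt M (fun x' => g (y x')) x) ∧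
    ∀ (k : ℕ) (ρ : (Fin k → ℝ) → M.X → ℝ) (ξ : M.X → Fin k → ℝ), JA M ρ (ξ x) (y x) → AnAt M ξ x →
      AnAt M (fun x' => ρ (ξ x') (y x')) x) ∧
  (∀ x, HM M x id) ∧
  (∀ x (g : M.X → ℝ), (PhAt M g x → (∀ᶠ y in 𝓝 x, PhAt M g y) ∧ AnAt M g x ∧
      (∀ g', g =ᶠ[𝓝 x] g' → PhAt M g' x) ∧ (∀ a : ℝ, PhAt M (fun y => a * g y) x) ∧
      ∀ g', PhAt M g' x → PhAt M (fun y => g y + g' y) x ∧ PhAt M (fun y => g y - g' y) x) ∧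
    (AnAt M g x → (∃ᶠ y in 𝓝 x, PhAt M g y) → PhAt M g x)) ∧
  (∀ x (a : ℝ), PhAt M (fun _ => a) x) ∧
  (∀ x (g : M.X → ℂ), HolAt M g x → PhAt M (fun y => (g y).re) x) ∧
  ∀ x (u u' : M.X → ℝ) (T : M.Fam (Mat n)),
    (∀ᶠ y in 𝓝 x, SmAt M u y ∧ SmAt M u' y ∧ EqAt M (M.hs u) (-T) y ∧ EqAt M (M.hs u') T y) →
    PhAt M (fun y => u y + u' y) x

/-- Calculus of logarithmic growth. -/
def St_FLG : Prop := ∀ (n : ℕ) (M : Mf n) (W : Set M.X) (S : M.X → Set M.X),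
  (∀ g, LogT M W g → LogS M W S fun x _ => g x) ∧
  (∀ g, LogS M W S g → (∀ W', Cothin M W' → LogS M W' S g) ∧
    (∀ S' : M.X → Set M.X, (∀ x, S' x ⊆ S x) → LogS M W S' g) ∧
    (∀ N : ℕ, (∀ x ∈ W, (S x).Finite ∧ (S x).ncard ≤ N) → LogT M W fun x => ∑ᶠ y ∈ S x, g x y) ∧
    ∀ g' g'' (C : ℝ), LogS M W S g' →
      (∀ x ∈ W, ∀ y ∈ S x, |g'' x y| ≤ C * (1 + |g x y| + |g' x y|)) → LogS M W S g'') ∧
  ∀ g W', LogT M W g → Cothin M W' → LogT M W' g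

/-- Calculus of meromorphic sections. -/
def St_FSEC : Prop := ∀ (n m : ℕ) (M : Mf n) (L : M.Co) (W : Set M.X) (s : M.Fam ℂ),
  (MerSec M L m s W → (∀ W', W' ⊆ W → MerSec M L m s W') ∧
    (∀ (g : M.X → ℂ) (a : ℕ), Mer M g → (∀ x ∈ W, HolAt M g x ∧ g x ≠ 0) →
      MerSec M L (a * m) (fun e z => g (e.symm z) * s e z ^ a) W) ∧
    ∀ φ, M.WtC L φ → (M.All fun e z => AnalyticAt ℝ (φ e) z) → IsOpen W → ∀ x ∈ W,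
      AnAt M (lgs M φ m s) x ∧ EqAt M (M.hs (lgs M φ m s)) (-((m : ℝ) • M.hw φ)) x ∧
      At M x fun e z => lgs M φ m s x = Real.log (normSq (s e z)) - m * φ e z) ∧
  ∀ g : M.X → ℂ, Mer M g → (∀ x ∈ W, HolAt M g x ∧ g x ≠ 0) →
    MerSec M L 0 (fun e z => g (e.symm z)) W

/-- Differentials that kill the kernel. -/
def St_FKIL : Prop := ∀ (n : ℕ) (M : Mf n) (φ : M.Fam ℝ) (x : M.X), WtP M φ →
  (∀ (g : M.X → ℂ) (e : M.Ch), HolAt M g x → e ∈ M.C → x ∈ e.source →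
    (∀ v, M.hw φ e (e x) *ᵥ v = 0 → fderiv ℂ (g ∘ e.symm) (e x) v = 0) → Kil M φ g x) ∧
  (∀ (r : ℕ) (τ : M.X → E r), HolAt M τ x → (∀ i, Kil M φ (fun y => τ y i) x) → Kil M φ τ x) ∧
  ∀ g : M.X → ℂ, HolAt M g x → g x ≠ 0 → (At M x fun e z => ∀ v, M.hw φ e z *ᵥ v = 0 →
    dv1 (fun w => Real.log (normSq (g (e.symm w))) - (0 : ℕ) * φ e w) z ⬝ᵥ v = 0) → Kil M φ g x

/-- Selection of independent functions. -/
def St_FSEL : Prop := ∀ (n r : ℕ) (M : Mf n) (κ : Type) (A : κ → M.X → ℂ) (H : M.X → E r)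
  (x : M.X) (e : M.Ch), e ∈ M.C → x ∈ e.source → (∀ a, HolAt M (A a) x) → Subm M H x →
  (∀ v, (∀ a, fderiv ℂ (A a ∘ e.symm) (e x) v = 0) → fderiv ℂ (H ∘ e.symm) (e x) v = 0) →
  ∃ ix : Fin r → κ, Subm M (fun y i => A (ix i) y) x

/-- The inverse of the affine coordinates. -/
def St_FINV : Prop := ∀ (n p d : ℕ) (M : Mf n) [M.Cpt] (Λ : Type) (g : Λ → Pol (p + n))
  (f : M.X → Fin (p + n + 1) → ℂ) (i₀ : Fin (p + n + 1)), Prj M d g f →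
  ∃ κ : (Fin (p + n + 1) → ℂ) → M.X, (∀ y, f y i₀ ≠ 0 → κ (af f i₀ y) = y) ∧
    (∀ Y, (∃ y, f y i₀ ≠ 0 ∧ Y = af f i₀ y) ↔ Y i₀ = 1 ∧ ∀ l, MvPolynomial.eval Y (g l) = 0) ∧
    ∀ x (Y : M.X → Fin (p + n + 1) → ℂ), HolAt M Y x →
      (∀ᶠ x' in 𝓝 x, ∃ y, f y i₀ ≠ 0 ∧ Y x' = af f i₀ y) → HM M x fun x' => κ (Y x')

/-- The correspondence defined by the algebraic equations. -/
def St_FCOR : Prop := ∀ (q k j p d : ℕ) (M : Mf (q + j)) [M.Cpt] (Λ : Type) [Fintype Λ]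
  (g : Λ → Pol (p + (q + j))) (f : M.X → Fin (p + (q + j) + 1) → ℂ) (O : Set M.X)
  (H : M.X → E (k + j)) (i₀ : Fin (p + (q + j) + 1)) (ix : Fin q → Fin (p + (q + j) + 1))
  (e : M.Ch) (a : E (q + j)) (R : ℝ) (m : ℕ) (θ : M.X → ℂ) (a₁ : E (q + j)) (R₁ : ℝ) (W : Set M.X)
  (P : Fin (p + (q + j) + 1) → M.X → Polynomial ℂ) (dP : Fin (p + (q + j) + 1) → ℕ),
  Prj M d g f → Ebx M f i₀ ix O H e a R → SecO M f m θ → ball a₁ R₁ ⊆ ball a R →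
  θ (e.symm a₁) ≠ 0 → Alg M f i₀ e a₁ R₁ W P dP →
  ∃ S N, Cor M W S N ∧ Lnk M e a₁ R₁ W S ∧ (∀ x ∈ W, ∀ y ∈ S x, f y i₀ ≠ 0) ∧
    LogS M W S (fun _ y => Real.log (nsq (af f i₀ y))) ∧
    ∀ x ∈ W, ∀ y, Sct (HM M) S x y → ∃ᶠ x' in 𝓝 x, θ (y x') ≠ 0

/-- The norm of the section along the correspondence. -/
def St_FNRM : Prop := ∀ (n : ℕ) (M : Mf n) [M.Cpt] (ι : Type) [Fintype ι] (f : M.X → ι → ℂ)
  (i₀ : ι) (m : ℕ) (θ : M.X → ℂ) (W : Set M.X) (S : M.X → Set M.X) (N : ℕ) (C : ℝ), PMap M f →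
  SecO M f m θ → (∀ x, no f m θ x ≤ C) → (∃ x, θ x ≠ 0 ∧ f x i₀ ≠ 0) → Cor M W S N →
  (∀ x ∈ W, ∀ y ∈ S x, f y i₀ ≠ 0) → LogS M W S (fun _ y => Real.log (nsq (af f i₀ y))) →
  (∀ x ∈ W, ∀ y, Sct (HM M) S x y → ∃ᶠ x' in 𝓝 x, θ (y x') ≠ 0) →
  ∃ W₂, W₂ ⊆ W ∧ Cothin M W₂ ∧ (∀ x ∈ W₂, θ x ≠ 0 ∧ f x i₀ ≠ 0 ∧ ∀ y ∈ S x, θ y ≠ 0) ∧
    LogS M W₂ S (fun _ y => Real.log (no f m θ y)) ∧
    LogT M W₂ (fun x => Real.log (no f m θ x)) ∧ LogT M W₂ fun x => Real.log (nsq (af f i₀ x))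

/-- The consequences of coercivity. -/
def St_FU0 : Prop := ∀ (n k : ℕ) (M : Mf n) [M.Cpt] (ι : Type) [Fintype ι] (f : M.X → ι → ℂ)
  (L : M.Co) (φ : M.Fam ℝ) (ρ : (Fin k → ℝ) → M.X → ℝ) (b : Fin k → ℝ) (i₀ : ι) (m : ℕ)
  (θ : M.X → ℂ) (s : M.Fam ℂ), PMap M f → Coe M L φ f ρ b m θ s → (∃ x, f x i₀ ≠ 0) →
  (∀ x, ρ 0 x = 0) → IsOpen {x | θ x ≠ 0 ∧ f x i₀ ≠ 0} ∧
    MerSec M L 1 s {x | θ x ≠ 0 ∧ f x i₀ ≠ 0} ∧ (∀ x, θ x ≠ 0 → Cv ρ b x) ∧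
    ∃ C : ℝ, (∀ x, θ x ≠ 0 → f x i₀ ≠ 0 → |lgs M φ 1 s x| ≤
      C * (1 + |Real.log (no f m θ x)| + |Real.log (nsq (af f i₀ x))|)) ∧
    ∀ x y ξ, θ x ≠ 0 → θ y ≠ 0 → Rel ρ x y ξ →
      ‖ξ‖ ≤ C * (1 + |Real.log (no f m θ x)| + |Real.log (no f m θ y)|)

/-- Elementary properties of the relation. -/
def St_FREL : Prop := ∀ (k : ℕ) (X : Type) [TopologicalSpace X] (ρ : (Fin k → ℝ) → X → ℝ),
  (∀ x y z ξ ξ', Rel ρ x y ξ → Rel ρ y z ξ' → Rel ρ x z (ξ' + ξ)) ∧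
  (∀ x y ξ, Rel ρ x y ξ → Rel ρ x y (xi ρ x y)) ∧
  (∀ b y, Cv ρ b y → (∀ᶠ y' in 𝓝 y, Cv ρ b y') ∧ ∀ x ξ, Rel ρ x y ξ → xi ρ x y = ξ) ∧
  ∀ (j : ℕ) (ψ : E (k + j) → ℝ) (x y : X) (t t' : E (k + j)), (∀ t a, ψ (t + I • io j a) = ψ t) →
    (∀ ζ, ρ ζ x = ψ (sh t ζ) - ψ t) → (∀ ζ, ρ ζ y = ψ (sh t' ζ) - ψ t') → sx t = sx t' →
    Rel ρ x y (r2 (fx t) - r2 (fx t')) ∧ ρ (r2 (fx t) - r2 (fx t')) y = ψ t - ψ t'

/-- The relation is closed. -/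
def St_FRCL : Prop := ∀ (n k : ℕ) (M : Mf n) (ρ : (Fin k → ℝ) → M.X → ℝ) (b : Fin k → ℝ)
  (u : M.X → ℝ) (x : M.X) (y : M.X → M.X), (∀ ξ x, JA M ρ ξ x) → (∀ x, ρ 0 x = 0) → HM M x y →
  Cv ρ b x → Cv ρ b (y x) → AnAt M u x → AnAt M u (y x) → (∃ᶠ x' in 𝓝 x, TR M ρ u x' y) →
  TR M ρ u x y

/-- The sums over the related points. -/
def St_FSUM : Prop := ∀ (n k : ℕ) (M : Mf n) (ρ : (Fin k → ℝ) → M.X → ℝ) (b : Fin k → ℝ)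
  (u L : M.X → ℝ) (W : Set M.X) (S : M.X → Set M.X) (N : ℕ) (C : ℝ) [T2Space M.X],
  (∀ ξ x, JA M ρ ξ x) → (∀ x, ρ 0 x = 0) → (∀ ξ x, |ρ ξ x| ≤ C * ‖ξ‖) → Cor M W S N →
  (∀ x ∈ W, Cv ρ b x ∧ AnAt M u x ∧ ∀ y ∈ S x, Cv ρ b y ∧ AnAt M u y) →
  (∀ x ∈ W, ∀ y ∈ S x, ∀ ξ, Rel ρ x y ξ → ‖ξ‖ ≤ C * (1 + |L x| + |L y|)) →
  LogT M W L → LogT M W u → LogS M W S (fun _ y => L y) → LogS M W S (fun _ y => u y) →
  Cor M W (Sel (HM M) S (TR M ρ u)) N ∧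
    (∀ i, (∀ x ∈ W, PhAt M (gx M ρ (Sel (HM M) S (TR M ρ u)) i) x) ∧
      LogT M W (gx M ρ (Sel (HM M) S (TR M ρ u)) i)) ∧
    (∀ x ∈ W, PhAt M (g0 M ρ u (Sel (HM M) S (TR M ρ u))) x) ∧
    LogT M W (g0 M ρ u (Sel (HM M) S (TR M ρ u)))

/-- The relation holds in the box. -/
def St_FRBX : Prop := ∀ (q k j : ℕ) (M : Mf (q + j)) (ι : Type) [Fintype ι] (f : M.X → ι → ℂ)
  (φ : M.Fam ℝ) (ρ : (Fin k → ℝ) → M.X → ℝ) (b : Fin k → ℝ) (Φ : E (k + j) × E (k + j) → ℂ)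
  (δ : ℝ) (O : Set M.X) (H : M.X → E (k + j)) (ψ : E (k + j) → ℝ) (δ' c₁ : ℝ) (i₀ : ι)
  (ix : Fin q → ι) (e : M.Ch) (a : E (q + j)) (R : ℝ) (u : M.X → ℝ) (c z : E (q + j)),
  Phh M φ ρ Φ δ O H ψ δ' c₁ → Ebx M f i₀ ix O H e a R → c ∈ ball a R → z ∈ ball a R →
  HM M (e.symm z) (yy M e c) ∧ (Cv ρ b (yy M e c (e.symm z)) → NPot M φ u (e.symm z) →
    NPot M φ u (yy M e c (e.symm z)) → TR M ρ u (e.symm z) (yy M e c))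

/-- The local form of the sums. -/
def St_FLOC : Prop := ∀ (q k j : ℕ) (M : Mf (q + j)) [T2Space M.X] (ι : Type) [Fintype ι]
  (f : M.X → ι → ℂ) (φ : M.Fam ℝ) (ρ : (Fin k → ℝ) → M.X → ℝ) (b : Fin k → ℝ)
  (Φ : E (k + j) × E (k + j) → ℂ) (δ : ℝ) (O : Set M.X) (H : M.X → E (k + j))
  (ψ : E (k + j) → ℝ) (δ' c₁ : ℝ) (i₀ : ι) (ix : Fin q → ι) (e : M.Ch) (a : E (q + j)) (R : ℝ)
  (u : M.X → ℝ) (S : M.X → Set M.X) (z : E (q + j)), Phh M φ ρ Φ δ O H ψ δ' c₁ →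
  Ebx M f i₀ ix O H e a R → z ∈ ball a R → ShAt (HM M) S (e.symm z) →
  ShAt (HM M) (Sel (HM M) S (TR M ρ u)) (e.symm z) →
  (∀ᶠ x in 𝓝 (e.symm z), S x = S (yy M e z x)) → (∀ y ∈ S (e.symm z), Cv ρ b y) →
  ∃ (β : Fin k → E j → ℝ) (F : E (k + j) → ℝ), ∀ᶠ x in 𝓝 (e.symm z),
    (∀ i, gx M ρ (Sel (HM M) S (TR M ρ u)) i x =
      (Sel (HM M) S (TR M ρ u) (e.symm z)).ncard * r2 (fx (H x)) i + β i (sx (H x))) ∧
    g0 M ρ u (Sel (HM M) S (TR M ρ u)) x + (Sel (HM M) S (TR M ρ u) (e.symm z)).ncard * u x =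
      F (pj (H x))

/-- The coefficients determine the plaque to first order, and they kill the plaques. -/
def St_FDS : Prop := ∀ (q k j p d : ℕ) (M : Mf (q + j)) (Λ : Type) (g : Λ → Pol (p + (q + j)))
  (f : M.X → Fin (p + (q + j) + 1) → ℂ) (O : Set M.X) (H : M.X → E (k + j))
  (i₀ : Fin (p + (q + j) + 1)) (ix : Fin q → Fin (p + (q + j) + 1)) (e : M.Ch) (a : E (q + j))
  (R : ℝ) (a₁ : E (q + j)) (R₁ : ℝ) (W : Set M.X)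
  (P : Fin (p + (q + j) + 1) → M.X → Polynomial ℂ) (dP : Fin (p + (q + j) + 1) → ℕ)
  (z v : E (q + j)), Prj M d g f → Ebx M f i₀ ix O H e a R → ball a₁ R₁ ⊆ ball a R →
  Alg M f i₀ e a₁ R₁ W P dP → z ∈ ball a₁ R₁ → e.symm z ∈ W →
  ((∀ l i, fderiv ℂ ((fun x => (P l x).coeff i) ∘ e.symm) z v = 0) ↔ sx v = 0) ∧
    (HolAt M H (e.symm z) → sx (fderiv ℂ (H ∘ e.symm) z v) = sx v)

/-- The first coordinates of `H` are determined to first order. -/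
def St_FDT : Prop := ∀ (q k j m : ℕ) (M : Mf (q + j)) (ι : Type) [Fintype ι] (f : M.X → ι → ℂ)
  (O : Set M.X) (H : M.X → E (k + j)) (i₀ : ι) (ix : Fin q → ι) (e : M.Ch) (a : E (q + j)) (R : ℝ)
  (z v : E (q + j)) (i : Fin k) (N c : ℝ) (β : E j → ℝ) (l : Fin m → ℝ) (A : Fin m → M.X → ℂ),
  Ebx M f i₀ ix O H e a R → z ∈ ball a R → HolAt M H (e.symm z) → N ≠ 0 →
  (∀ b, HolAt M (A b) (e.symm z) ∧ A b (e.symm z) ≠ 0 ∧ fderiv ℂ (A b ∘ e.symm) z v = 0) →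
  (∀ᶠ x in 𝓝 (e.symm z), ∑ b, l b * Real.log (normSq (A b x)) + c =
    N * r2 (fx (H x)) i + β (sx (H x))) → sx v = 0 → fx (fderiv ℂ (H ∘ e.symm) z v) i = 0

end Pool.Agent.Lib.RA
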